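import Pool.Agent.N192.GP.Top
import Pool.Agent.N192.GP.Split

set_option autoImplicit false
set_option linter.unusedSectionVars false
set_option linter.unusedVariables false

/-!
# The action of the Lie algebra on mixed forms
-/

open Module Function TensorProduct

noncomputable section

namespace Pool.Agent.L0h12.FT

open Pool.Agent.Y102 Pool.Agent.W516.DR Pool.Agent.H204R3.GP Pool.Agent.W516.KC
  Pool.Agent.H204R3.SP Pool.Agent.N192.GP

variable {g d : ℕ} (A : AbVar g) (V : DRS d)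
  {κ κ' : Type} [Fintype κ] [DecidableEq κ] [Fintype κ'] [DecidableEq κ'] {w : ℤ}

/-- The dimensions of the two members. -/
abbrev nd (g d : ℕ) : Unit ⊕ Unit → ℕ := nn (fun _ : Unit => g) fun _ : Unit => d

/-- The bases of the two members. -/
abbrev hh2 : ∀ t : Unit ⊕ Unit, Basis (Fin (nd g d t)) ℂ ((Fin (nd g d t) → ℚ) →ₗ[ℚ] ℂ) :=
  ηη (fun _ : Unit => A) fun _ : Unit => V

/-- Mixed de Rham-Betti classes. -/
def Mix (w : ℤ) (φ : MultilinearMap ℚ (fun _ : κ => A.H1)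
    (MultilinearMap ℚ (fun _ : κ' => Fin d → ℚ) ℚ)) : Prop :=
  ∃ a : (κ → Fin g ⊕ Fin g) → (κ' → Fin d) → QBar, ∀ u v, tau ^ w * ((φ u v : ℚ) : ℂ) =
    ∑ J, ∑ J', algebraMap QBar ℂ (a J J') * ((∏ l, A.dR (J l) (u l)) * ∏ l, V.eta (J' l) (v l))

variable {A V}

/-- The form as a form on families. -/
def up (φ : MultilinearMap ℚ (fun _ : κ => A.H1) (MultilinearMap ℚ (fun _ : κ' => Fin d → ℚ) ℚ)) :
    MultilinearMap ℚ (fun _ : κ => ∀ _ : Unit, Fin (2 * g) → ℚ)
      (MultilinearMap ℚ (fun _ : κ' => ∀ _ : Unit, Fin d → ℚ) ℚ) :=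
  (MultilinearMap.compLinearMapₗ fun _ : κ' => (LinearMap.proj () :
    (∀ _ : Unit, Fin d → ℚ) →ₗ[ℚ] (Fin d → ℚ))).compMultilinearMap
    (φ.compLinearMap fun _ : κ => (LinearMap.proj () : (∀ _ : Unit, Fin (2 * g) → ℚ) →ₗ[ℚ] A.H1))

theorem up_apply (φ : MultilinearMap ℚ (fun _ : κ => A.H1)
    (MultilinearMap ℚ (fun _ : κ' => Fin d → ℚ) ℚ)) (u : κ → ∀ _ : Unit, Fin (2 * g) → ℚ)
    (v : κ' → ∀ _ : Unit, Fin d → ℚ) : up φ u v = φ (fun l => u l ()) fun l => v l () := rfl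

theorem tw_up {φ : MultilinearMap ℚ (fun _ : κ => A.H1)
    (MultilinearMap ℚ (fun _ : κ' => Fin d → ℚ) ℚ)} (h : Mix A V w φ) :
    IsTw (eB (hh2 A V)) w (toB (up φ)) := by
  obtain ⟨a, ha⟩ := h
  refine isTw_of_sum (P := (κ → Fin g ⊕ Fin g) × (κ' → Fin d))
    (fun p => Sum.elim (fun l => idA ⟨(), p.1 l⟩) fun l => idV ⟨(), p.2 l⟩) (fun p => a p.1 p.2)
    fun x => ?_
  rw [toB_apply, up_apply, ha, Fintype.sum_prod_type]
  refine Finset.sum_congr rfl fun J _ => Finset.sum_congr rfl fun J' _ => ?_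
  congr 1
  rw [Fintype.prod_sum_type]
  congr 1
  · refine Finset.prod_congr rfl fun l _ => ?_
    rw [Sum.elim_inl, eB_idA]
    rfl
  · refine Finset.prod_congr rfl fun l _ => ?_
    rw [Sum.elim_inr, eB_idV]
    rfl

variable (A) in
/-- The component in the homology. -/
def xA (ℓ : RR (nd g d)) : Module.End ℚ A.H1 := ℓ.1 (Sum.inl ())

/-- The component in the second member. -/
def xV (ℓ : RR (nd g d)) : Module.End ℚ (Fin d → ℚ) := ℓ.1 (Sum.inr ())

variable (A) in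
/-- The normalized component in the homology. -/
def pA : RR (nd g d) →ₗ[ℚ] Module.End ℚ A.H1 := pr (Sum.inl ())

theorem pA_apply (ℓ : RR (nd g d)) : pA A ℓ = xA A ℓ - (ℓ.2 / 2) • 1 := rfl

theorem act_formula {φ : MultilinearMap ℚ (fun _ : κ => A.H1)
    (MultilinearMap ℚ (fun _ : κ' => Fin d → ℚ) ℚ)} (h : Mix A V w φ) {ℓ : RR (nd g d)}
    (hℓ : ℓ ∈ LG (hh2 A V)) (u : κ → A.H1) (v : κ' → Fin d → ℚ) :
    (∑ l, φ (update u l (xA A ℓ (u l))) v) + ∑ l, φ u (update v l (xV ℓ (v l))) =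
      w * ℓ.2 * φ u v := by
  have h1 := LG_le_LL _ hℓ (κ ⊕ κ') w _ (tw_up h)
  have h2 := cur_acts h1 (fun l _ => v l) (fun l _ => u l)
  rw [cur_toB, up_apply] at h2
  rw [← h2]
  congr 1
  · refine Finset.sum_congr rfl fun l _ => ?_
    rw [cur_toB, up_apply]
    congr 2
    funext l'
    by_cases h3 : l' = l
    · subst h3
      rw [update_self, update_self]
      rfl
    · rw [update_of_ne h3, update_of_ne h3]
  · refine Finset.sum_congr rfl fun l _ => ?_
    rw [cur_toB, up_apply]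
    congr 2
    funext l'
    by_cases h3 : l' = l
    · subst h3
      rw [update_self, update_self]
      rfl
    · rw [update_of_ne h3, update_of_ne h3]

end Pool.Agent.L0h12.FT
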