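import Pool.Agent.L0h12.FT.Act

set_option autoImplicit false
set_option linter.unusedSectionVars false
set_option linter.unusedVariables false

/-!
# The action of the Lie algebra on mixed forms, with values on the whole structure
-/

open Module Function TensorProduct

noncomputable section

namespace Pool.Agent.L0h12.FT

open Pool.Agent.Y102 Pool.Agent.W516.DR Pool.Agent.H204R3.GP Pool.Agent.W516.KC
  Pool.Agent.H204R3.SP Pool.Agent.N192.GP

variable {g d : ℕ} (A : AbVar g) (V : DRS d)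
  {κ κ' : Type} [Fintype κ] [DecidableEq κ] [Fintype κ'] [DecidableEq κ'] {w : ℤ}

/-- The basis of the sum of the homology and of the structure. -/
def dRT : (Fin g ⊕ Fin g) ⊕ Fin d → (A.H1 × (Fin d → ℚ) →ₗ[ℚ] ℂ) :=
  Sum.elim (fun i => (A.dR i).comp (LinearMap.fst ℚ _ _)) fun j =>
    (V.eta j).comp (LinearMap.snd ℚ _ _)

/-- Mixed de Rham-Betti classes. -/
def Mix2 (w : ℤ) (φ : MultilinearMap ℚ (fun _ : κ => A.H1)
    (MultilinearMap ℚ (fun _ : κ' => A.H1 × (Fin d → ℚ)) ℚ)) : Prop :=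
  ∃ a : (κ → Fin g ⊕ Fin g) → (κ' → (Fin g ⊕ Fin g) ⊕ Fin d) → QBar, ∀ u z,
    tau ^ w * ((φ u z : ℚ) : ℂ) = ∑ J, ∑ J', algebraMap QBar ℂ (a J J') *
      ((∏ l, A.dR (J l) (u l)) * ∏ l, dRT A V (J' l) (z l))

variable {A V}

/-- The projection to the homology. -/
def prH : Bt (nd g d) →ₗ[ℚ] A.H1 where
  toFun y := y (Sum.inl ())
  map_add' _ _ := rfl
  map_smul' _ _ := rfl

/-- The total space as a product. -/
def prT : Bt (nd g d) →ₗ[ℚ] A.H1 × (Fin d → ℚ) where
  toFun y := (y (Sum.inl ()), y (Sum.inr ()))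
  map_add' _ _ := rfl
  map_smul' _ _ := rfl

/-- The product as the total space. -/
def inT : A.H1 × (Fin d → ℚ) →ₗ[ℚ] Bt (nd g d) where
  toFun z := fun t => match t with
    | Sum.inl _ => z.1
    | Sum.inr _ => z.2
  map_add' u v := by
    funext t
    rcases t with _ | _ <;> rfl
  map_smul' c u := by
    funext t
    rcases t with _ | _ <;> rfl

theorem prT_inT (z : A.H1 × (Fin d → ℚ)) : prT (inT z) = z := rfl

variable (A) in
/-- The action of the elements of the Lie algebra. -/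
def actT (ℓ : RR (nd g d)) (z : A.H1 × (Fin d → ℚ)) : A.H1 × (Fin d → ℚ) :=
  (xA A ℓ z.1, xV ℓ z.2)

theorem prT_act (ℓ : RR (nd g d)) (y : Bt (nd g d)) :
    prT (A := A) (act ℓ.1 y) = actT A ℓ (prT y) := rfl

/-- The form as a form on the total space. -/
def toT (φ : MultilinearMap ℚ (fun _ : κ => A.H1)
    (MultilinearMap ℚ (fun _ : κ' => A.H1 × (Fin d → ℚ)) ℚ)) :
    MultilinearMap ℚ (fun _ : κ ⊕ κ' => Bt (nd g d)) ℚ :=
  MultilinearMap.uncurrySum (N := fun _ : κ ⊕ κ' => Bt (nd g d))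
    (((MultilinearMap.compLinearMapₗ fun _ : κ' => prT (A := A)).compMultilinearMap
      (φ.compLinearMap fun _ => prH)))

theorem toT_apply (φ : MultilinearMap ℚ (fun _ : κ => A.H1)
    (MultilinearMap ℚ (fun _ : κ' => A.H1 × (Fin d → ℚ)) ℚ)) (y : κ ⊕ κ' → Bt (nd g d)) :
    toT φ y = φ (fun l => prH (y (Sum.inl l))) fun l => prT (y (Sum.inr l)) := rfl

/-- The indices. -/
def idT : (Fin g ⊕ Fin g) ⊕ Fin d → Σ t, Fin (nd g d t) :=
  Sum.elim (fun i => idA ⟨(), i⟩) fun j => idV ⟨(), j⟩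

/-- The indices. -/
def ixT : (Σ t, Fin (nd g d t)) → (Fin g ⊕ Fin g) ⊕ Fin d
  | ⟨Sum.inl _, i⟩ => Sum.inl ((eqv g).symm i)
  | ⟨Sum.inr _, j⟩ => Sum.inr j

theorem eB_idT (q : (Fin g ⊕ Fin g) ⊕ Fin d) (y : Bt (nd g d)) :
    eB (hh2 A V) (idT q) y = dRT A V q (prT y) := by
  rcases q with i | j
  · change eB (hh2 A V) (idA ⟨(), i⟩) y = _
    rw [eB_idA]
    rfl
  · change eB (hh2 A V) (idV ⟨(), j⟩) y = _
    rw [eB_idV]
    rfl

theorem eB_ixT (q : Σ t, Fin (nd g d t)) (z : A.H1 × (Fin d → ℚ)) :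
    eB (hh2 A V) q (inT z) = dRT A V (ixT q) z := by
  have h1 : q = idT (ixT q) := by
    obtain ⟨t, i⟩ := q
    rcases t with t | t
    · change (⟨Sum.inl (), i⟩ : Σ t, Fin (nd g d t)) = ⟨Sum.inl (), eqv g ((eqv g).symm i)⟩
      rw [Equiv.apply_symm_apply]
    · rfl
  conv_lhs => rw [h1]
  rw [eB_idT, prT_inT]

theorem tw_toT {φ : MultilinearMap ℚ (fun _ : κ => A.H1)
    (MultilinearMap ℚ (fun _ : κ' => A.H1 × (Fin d → ℚ)) ℚ)} (h : Mix2 A V w φ) :
    IsTw (eB (hh2 A V)) w (toT φ) := by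
  obtain ⟨a, ha⟩ := h
  refine isTw_of_sum (P := (κ → Fin g ⊕ Fin g) × (κ' → (Fin g ⊕ Fin g) ⊕ Fin d))
    (fun p => Sum.elim (fun l => idA ⟨(), p.1 l⟩) fun l => idT (p.2 l)) (fun p => a p.1 p.2)
    fun y => ?_
  rw [toT_apply, ha, Fintype.sum_prod_type]
  refine Finset.sum_congr rfl fun J _ => Finset.sum_congr rfl fun J' _ => ?_
  congr 1
  rw [Fintype.prod_sum_type]
  congr 1
  · refine Finset.prod_congr rfl fun l _ => ?_
    rw [Sum.elim_inl, eB_idA]
    rfl
  · refine Finset.prod_congr rfl fun l _ => ?_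
    rw [Sum.elim_inr, eB_idT]

theorem act_formula2 {φ : MultilinearMap ℚ (fun _ : κ => A.H1)
    (MultilinearMap ℚ (fun _ : κ' => A.H1 × (Fin d → ℚ)) ℚ)} (h : Mix2 A V w φ) {ℓ : RR (nd g d)}
    (hℓ : ℓ ∈ LG (hh2 A V)) (u : κ → A.H1) (z : κ' → A.H1 × (Fin d → ℚ)) :
    (∑ l, φ (update u l (xA A ℓ (u l))) z) + ∑ l, φ u (update z l (actT A ℓ (z l))) =
      w * ℓ.2 * φ u z := by
  have h1 := LG_le_LL _ hℓ (κ ⊕ κ') w _ (tw_toT h)
  have h2 := h1 (Sum.elim (fun l => inT (u l, 0)) fun l => inT (z l))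
  rw [Fintype.sum_sum_type] at h2
  rw [toT_apply] at h2
  refine Eq.trans ?_ h2
  congr 1
  · refine Finset.sum_congr rfl fun l _ => ?_
    rw [toT_apply]
    congr 1
    · congr 1
      funext l'
      by_cases h3 : l' = l
      · subst h3
        rw [update_self, update_self]
        rfl
      · rw [update_of_ne h3, update_of_ne (fun h4 => h3 (Sum.inl_injective h4))]
        rfl
  · refine Finset.sum_congr rfl fun l _ => ?_
    rw [toT_apply]
    congr 1
    funext l'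
    by_cases h3 : l' = l
    · subst h3
      rw [update_self, update_self]
      rfl
    · rw [update_of_ne h3, update_of_ne (fun h4 => h3 (Sum.inr_injective h4))]
      rfl

/-- The converse, for forms on the sum. -/
theorem tw_of_acts2 {χ : MultilinearMap ℚ (fun _ : κ' => A.H1 × (Fin d → ℚ)) ℚ}
    (h : ∀ (D : Derivation QBar ℂ ℂ) (lam : ℂ →ₗ[ℚ] ℚ) (z : κ' → A.H1 × (Fin d → ℚ)),
      ∑ l, χ (update z l (actT A (gn (hh2 A V) D lam) (z l))) = w * tt D lam * χ z) :
    IsTw (dRT A V) w χ := by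
  have h1 : IsTw (eB (hh2 A V)) w (χ.compLinearMap fun _ => prT) := by
    refine tw_of_acts (eB (hh2 A V)) fun D lam y => ?_
    have h2 := h D lam fun l => prT (y l)
    rw [MultilinearMap.compLinearMap_apply]
    refine Eq.trans (Finset.sum_congr rfl fun l _ => ?_) h2
    rw [MultilinearMap.compLinearMap_apply]
    congr 1
    funext l'
    by_cases h3 : l' = l
    · subst h3
      rw [update_self, update_self]
      change (NN (eB (hh2 A V)) D lam (y l') (Sum.inl ()),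
        NN (eB (hh2 A V)) D lam (y l') (Sum.inr ())) = _
      rw [NN_eB, NN_eB]
      rfl
    · rw [update_of_ne h3, update_of_ne h3]
  obtain ⟨a, ha⟩ := h1
  refine isTw_of_sum (P := κ' → Σ t, Fin (nd g d t)) (fun p l => ixT (p l)) a fun z => ?_
  have h2 := ha fun l => inT (z l)
  rw [MultilinearMap.compLinearMap_apply] at h2
  have h3 : (fun l => prT (A := A) (inT (z l))) = z := rfl
  rw [h3] at h2
  rw [h2]
  refine Finset.sum_congr rfl fun J _ => ?_
  congr 1
  exact Finset.prod_congr rfl fun l _ => eB_ixT _ _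

end Pool.Agent.L0h12.FT
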