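import Pool.Agent.L0h12.FT.DimI

set_option autoImplicit false
set_option linter.unusedSectionVars false
set_option linter.unusedVariables false

/-!
# Dimensions of representations of Lie algebras with many ideals: the general case
-/

open Module Function LieModule

noncomputable section

namespace Pool.Agent.L0h12.FT

attribute [local instance 100] LieRing.ofAssociativeRing

variable {L : Type*} [LieRing L] [LieAlgebra ℂ L] [FiniteDimensional ℂ L]
  {σ : Type*} [DecidableEq σ] {K : σ → LieIdeal ℂ L}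

/-- The irreducible case. -/
theorem irrI' {S : Finset σ} {M : Type*} [AddCommGroup M] [Module ℂ M]
    [LieRingModule L M] [LieModule ℂ L M] [FiniteDimensional ℂ M] [Nontrivial M]
    (hirr : ∀ N : LieSubmodule ℂ L M, N ≠ ⊥ → N = ⊤) (D : DatI S K)
    (hker : ∀ x : L, (∀ m : M, ⁅x, m⁆ = 0) → ∀ s ∈ S, x ∈ K s) :
    2 * S.card ≤ finrank ℂ M := by
  classical
  let L' : LieSubalgebra ℂ (End ℂ M) := (toEnd ℂ L M).range
  have hmem : ∀ x : L, toEnd ℂ L M x ∈ L' := fun x => ⟨x, rfl⟩
  -- the irreducibility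
  have hirr' : IsIrreducible ℂ L' M := by
    refine IsIrreducible.mk fun N hN => ?_
    let N' : LieSubmodule ℂ L M :=
      { (N : Submodule ℂ M) with
        lie_mem := by
          intro x m hm
          have h1 : ⁅(⟨toEnd ℂ L M x, hmem x⟩ : L'), m⁆ ∈ N := N.lie_mem hm
          exact h1 }
    have h1 : N' ≠ ⊥ := by
      intro h
      apply hN
      rw [LieSubmodule.eq_bot_iff] at h ⊢
      exact fun m hm => h m hm
    have h2 := hirr N' h1
    refine LieSubmodule.toSubmodule_injective (Submodule.ext fun m => ⟨fun _ => trivial, fun _ => ?_⟩)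
    have h3 : m ∈ N' := by rw [h2]; exact LieSubmodule.mem_top m
    exact h3
  -- a linear section
  obtain ⟨τ, hτ⟩ : ∃ τ : L' →ₗ[ℂ] L, ∀ y : L', toEnd ℂ L M (τ y) = y := by
    have h1 : Function.Surjective ((toEnd ℂ L M : L →ₗ[ℂ] End ℂ M).rangeRestrict) :=
      LinearMap.surjective_rangeRestrict _
    obtain ⟨g, hg⟩ := LinearMap.exists_rightInverse_of_surjective _
      (LinearMap.range_eq_top.2 h1)
    refine ⟨g, fun y => ?_⟩
    have h2 := congrArg Subtype.val (LinearMap.congr_fun hg y)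
    exact h2
  have hker' : ∀ x y : L, toEnd ℂ L M x = toEnd ℂ L M y → ∀ s ∈ S, x - y ∈ K s := by
    intro x y hxy s hs
    refine hker (x - y) (fun m => ?_) s hs
    have h2 : ⁅x - y, m⁆ = toEnd ℂ L M x m - toEnd ℂ L M y m := sub_lie x y m
    rw [h2, hxy, sub_self]
  let pt : L → L' := fun x => ⟨toEnd ℂ L M x, hmem x⟩
  have hptb : ∀ x y : L, ⁅pt x, pt y⁆ = pt ⁅x, y⁆ := fun x y =>
    Subtype.ext (LieHom.map_lie (toEnd ℂ L M) x y).symm
  have hpta : ∀ x y : L, pt x + pt y = pt (x + y) := fun x y =>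
    Subtype.ext (map_add (toEnd ℂ L M) x y).symm
  have hpts : ∀ x y : L, pt x - pt y = pt (x - y) := fun x y =>
    Subtype.ext (map_sub (toEnd ℂ L M) x y).symm
  have hptc : ∀ (c : ℂ) (x : L), c • pt x = pt (c • x) := fun c x =>
    Subtype.ext (map_smul (toEnd ℂ L M) c x).symm
  have hptt : ∀ y : L', pt (τ y) = y := fun y => Subtype.ext (hτ y)
  let K' : σ → LieIdeal ℂ L' := fun s => if hs : s ∈ S then
    { carrier := {y | ∃ x ∈ K s, pt x = y}
      zero_mem' := ⟨0, (K s).zero_mem, Subtype.ext (map_zero (toEnd ℂ L M))⟩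
      add_mem' := by
        rintro _ _ ⟨x, hx, rfl⟩ ⟨y, hy, rfl⟩
        exact ⟨x + y, (K s).add_mem hx hy, (hpta x y).symm⟩
      smul_mem' := by
        rintro c _ ⟨x, hx, rfl⟩
        exact ⟨c • x, (K s).smul_mem c hx, (hptc c x).symm⟩
      lie_mem := by
        rintro z _ ⟨x, hx, rfl⟩
        refine ⟨⁅τ z, x⁆, (K s).lie_mem hx, ?_⟩
        rw [← hptb, hptt] }
    else ⊥
  have hK' : ∀ s ∈ S, ∀ x : L, pt x ∈ K' s ↔ x ∈ K s := by
    intro s hs x
    have h1 : pt x ∈ K' s ↔ ∃ y ∈ K s, pt y = pt x := by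
      simp only [K', dif_pos hs]
      exact Iff.rfl
    rw [h1]
    refine ⟨?_, fun h => ⟨x, h, rfl⟩⟩
    rintro ⟨y, hy, h2⟩
    have h3 := (K s).sub_mem hy (hker' y x (congrArg Subtype.val h2) s hs)
    rwa [sub_sub_cancel] at h3
  have D' : DatI S K' := by
    refine ⟨fun s hs => ?_, fun s hs I J hI hJ => ?_⟩
    · obtain ⟨h, e, f, h0, h1, h2, h3, h4⟩ := D.tri s hs
      refine ⟨pt h, pt e, pt f, ?_, ?_, ?_, ?_, fun t ht hts => ?_⟩
      · rw [hK' s hs]; exact h0
      · rw [hptb, hptc, hpts, hK' s hs]; exact h1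
      · rw [hptb, hptc, hpta, hK' s hs]; exact h2
      · rw [hptb, hpts, hK' s hs]; exact h3
      · rw [hK' t ht, hK' t ht, hK' t ht]; exact h4 t ht hts
    · have cm : ∀ I : LieIdeal ℂ L', ∃ I' : LieIdeal ℂ L, ∀ x, x ∈ I' ↔ pt x ∈ I := fun I =>
        ⟨{ carrier := {x | pt x ∈ I}
           zero_mem' := by
            have : pt 0 = 0 := Subtype.ext (map_zero (toEnd ℂ L M))
            change pt 0 ∈ I
            rw [this]
            exact I.zero_mem
           add_mem' := fun {a b} ha hb => by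
            change pt (a + b) ∈ I
            rw [← hpta]
            exact I.add_mem ha hb
           smul_mem' := fun c a ha => by
            change pt (c • a) ∈ I
            rw [← hptc]
            exact I.smul_mem c ha
           lie_mem := fun {x m} hm => by
            change pt ⁅x, m⁆ ∈ I
            rw [← hptb]
            exact I.lie_mem hm }, fun x => Iff.rfl⟩
      obtain ⟨I', hI'⟩ := cm I
      obtain ⟨J', hJ'⟩ := cm J
      obtain ⟨x, hx, hx'⟩ := hI
      obtain ⟨y, hy, hy'⟩ := hJ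
      obtain ⟨x1, hx1, y1, hy1, h1⟩ := D.prime s hs I' J'
        ⟨τ x, by rw [hI', hptt]; exact hx, by rw [← hK' s hs, hptt]; exact hx'⟩
        ⟨τ y, by rw [hJ', hptt]; exact hy, by rw [← hK' s hs, hptt]; exact hy'⟩
      exact ⟨pt x1, (hI' x1).1 hx1, pt y1, (hJ' y1).1 hy1, by rw [hptb, hK' s hs]; exact h1⟩
  exact irrI (L := L') D'

/-- **The dimension of a representation of a Lie algebra with `n` independent prime quotients, the
kernels of which contain the kernel of the representation, is at least `2 n`.** -/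
theorem datI_dim (n : ℕ) : ∀ {M : Type _} [AddCommGroup M] [Module ℂ M]
    [LieRingModule L M] [LieModule ℂ L M] [FiniteDimensional ℂ M] {S : Finset σ},
    finrank ℂ M ≤ n → DatI S K →
    (∀ x : L, (∀ m : M, ⁅x, m⁆ = 0) → ∀ s ∈ S, x ∈ K s) →
    2 * S.card ≤ finrank ℂ M := by
  classical
  induction n with
  | zero =>
    intro M _ _ _ _ _ S hn D hker
    rcases S.eq_empty_or_nonempty with rfl | ⟨s, hs⟩
    · simp
    exfalso
    have hs0 : Subsingleton M := finrank_zero_iff.1 (Nat.le_zero.1 hn)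
    obtain ⟨h, e, f, h1, -⟩ := D.tri s hs
    exact h1 (hker h (fun m => Subsingleton.elim _ _) s hs)
  | succ n ih =>
    intro M _ _ _ _ _ S hn D hker
    rcases S.eq_empty_or_nonempty with rfl | ⟨s₀, hs₀⟩
    · simp
    by_cases hirr : ∀ N : LieSubmodule ℂ L M, N ≠ ⊥ → N = ⊤
    · have : Nontrivial M := by
        by_contra hs0
        rw [not_nontrivial_iff_subsingleton] at hs0
        obtain ⟨h, e, f, h1, -⟩ := D.tri s₀ hs₀
        exact h1 (hker h (fun m => Subsingleton.elim _ _) s₀ hs₀)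
      exact irrI' hirr D hker
    push Not at hirr
    obtain ⟨N, hN0, hN1⟩ := hirr
    have hfr : finrank ℂ (M ⧸ N) + finrank ℂ N = finrank ℂ M :=
      Submodule.finrank_quotient_add_finrank (N : Submodule ℂ M)
    have hN0' : (N : Submodule ℂ M) ≠ ⊥ := fun h => hN0 (by
      rw [LieSubmodule.eq_bot_iff]
      intro m hm
      have : m ∈ (N : Submodule ℂ M) := hm
      rw [h] at this
      exact (Submodule.mem_bot ℂ).1 this)
    have hN1' : (N : Submodule ℂ M) ≠ ⊤ := fun h => hN1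
      (LieSubmodule.toSubmodule_injective h)
    have hlt1 : finrank ℂ N < finrank ℂ M := Submodule.finrank_lt hN1'
    have hpos : 0 < finrank ℂ N := by
      have : Nontrivial (N : Submodule ℂ M) := (Submodule.nontrivial_iff_ne_bot).2 hN0'
      exact finrank_pos (R := ℂ) (M := (N : Submodule ℂ M))
    have hk1 : ∀ x : L, (∀ m : N, ⁅x, m⁆ = 0) ↔ ∀ m ∈ N, ⁅x, m⁆ = 0 := by
      intro x
      constructor
      · intro h m hm
        exact congrArg Subtype.val (h ⟨m, hm⟩)
      · intro h m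
        exact Subtype.ext (h m.1 m.2)
    have hk2 : ∀ x : L, (∀ m : M ⧸ N, ⁅x, m⁆ = 0) ↔ ∀ m : M, ⁅x, m⁆ ∈ N := by
      intro x
      constructor
      · intro h m
        have h1 : (LieSubmodule.Quotient.mk ⁅x, m⁆ : M ⧸ N) = 0 := h (LieSubmodule.Quotient.mk m)
        exact (LieSubmodule.Quotient.mk_eq_zero').1 h1
      · intro h m
        induction m using Quotient.inductionOn' with
        | h m =>
          have h1 : (LieSubmodule.Quotient.mk ⁅x, m⁆ : M ⧸ N) = 0 :=
            (LieSubmodule.Quotient.mk_eq_zero').2 (h m)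
          exact h1
    let S₁ := S.filter fun s => ∀ x : L, (∀ m : N, ⁅x, m⁆ = 0) → x ∈ K s
    let S₂ := S.filter fun s => ∀ x : L, (∀ m : M ⧸ N, ⁅x, m⁆ = 0) → x ∈ K s
    have i1 := ih (M := N) (S := S₁) (by omega) (D.mono (Finset.filter_subset _ _))
      fun x hx s hs => (Finset.mem_filter.1 hs).2 x hx
    have i2 := ih (M := M ⧸ N) (S := S₂) (by omega) (D.mono (Finset.filter_subset _ _))
      fun x hx s hs => (Finset.mem_filter.1 hs).2 x hx
    have hcov : S ⊆ S₁ ∪ S₂ := by
      intro s hs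
      by_contra hcon
      rw [Finset.mem_union, not_or] at hcon
      have h1 : ¬∀ x : L, (∀ m : N, ⁅x, m⁆ = 0) → x ∈ K s := fun h =>
        hcon.1 (Finset.mem_filter.2 ⟨hs, h⟩)
      have h2 : ¬∀ x : L, (∀ m : M ⧸ N, ⁅x, m⁆ = 0) → x ∈ K s := fun h =>
        hcon.2 (Finset.mem_filter.2 ⟨hs, h⟩)
      push Not at h1 h2
      obtain ⟨x₁, h1, h1'⟩ := h1
      obtain ⟨x₂, h2, h2'⟩ := h2
      rw [hk1] at h1
      rw [hk2] at h2
      let I₁ : LieIdeal ℂ L :=
        { carrier := {x | ∀ m ∈ N, ⁅x, m⁆ = 0}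
          zero_mem' := fun m _ => zero_lie m
          add_mem' := fun {a b} ha hb m hm => by rw [add_lie, ha m hm, hb m hm, add_zero]
          smul_mem' := fun c a ha m hm => by rw [smul_lie, ha m hm, smul_zero]
          lie_mem := fun {z x} hx m hm => by
            rw [lie_lie, hx m hm, hx _ (N.lie_mem hm), lie_zero, sub_zero] }
      let I₂ : LieIdeal ℂ L :=
        { carrier := {x | ∀ m : M, ⁅x, m⁆ ∈ N}
          zero_mem' := fun m => by rw [zero_lie]; exact N.zero_mem
          add_mem' := fun {a b} ha hb m => by rw [add_lie]; exact N.add_mem (ha m) (hb m)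
          smul_mem' := fun c a ha m => by rw [smul_lie]; exact N.smul_mem c (ha m)
          lie_mem := fun {z x} hx m => by
            rw [lie_lie]
            exact N.sub_mem (N.lie_mem (hx m)) (hx _) }
      obtain ⟨a, ha, b, hb, hab⟩ := D.prime s hs I₁ I₂ ⟨x₁, h1, h1'⟩ ⟨x₂, h2, h2'⟩
      have h3 : ∃ x ∈ I₁ ⊓ I₂, x ∉ K s := by
        refine ⟨⁅a, b⁆, ⟨?_, I₂.lie_mem hb⟩, hab⟩
        have h4 : ⁅b, a⁆ ∈ I₁ := I₁.lie_mem ha
        have h5 := I₁.neg_mem h4
        rwa [lie_skew] at h5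
      obtain ⟨x, hx, y, hy, hxy⟩ := D.prime s hs (I₁ ⊓ I₂) (I₁ ⊓ I₂) h3 h3
      apply hxy
      refine hker _ (fun m => ?_) s hs
      have hx1 : ∀ m ∈ N, ⁅x, m⁆ = 0 := hx.1
      have hx2 : ∀ m : M, ⁅x, m⁆ ∈ N := hx.2
      have hy1 : ∀ m ∈ N, ⁅y, m⁆ = 0 := hy.1
      have hy2 : ∀ m : M, ⁅y, m⁆ ∈ N := hy.2
      rw [lie_lie, hx1 _ (hy2 m), hy1 _ (hx2 m), sub_zero]
    have hcard : S.card ≤ S₁.card + S₂.card :=
      (Finset.card_le_card hcov).trans (Finset.card_union_le _ _)
    omega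

end Pool.Agent.L0h12.FT
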