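import Pool.Agent.L0h12.FF.Sep

set_option autoImplicit false
set_option linter.unusedSectionVars false
set_option linter.unusedVariables false

/-!
# Representatives of the blocks
-/

open Module

noncomputable section

namespace Pool.Agent.L0h12.FT

open Pool.Agent.L0h12.FF

attribute [local instance 100] LieRing.ofAssociativeRing

variable {V : Type} [AddCommGroup V] [Module ℂ V] [FiniteDimensional ℂ V]
  {L : LieSubalgebra ℂ (Module.End ℂ V)} {ω : V →ₗ[ℂ] V →ₗ[ℂ] ℂ}
  {P : Prin L} {J : Type} {W : J → Submodule ℂ V} {v : J → V} {d : J → ℕ}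

/-- Blocks of the same dimension which are not separated are equal. -/
theorem fib_eq (H : Fam P ω W v d) [LieAlgebra.IsKilling ℂ L] {i k : J}
    (h1 : ∀ π : L →ₗ[ℂ] L, Cen L π → (Val P π (W i) 1 ↔ Val P π (W k) 1)) (hd : d i = d k) :
    i = k := by
  by_contra hne
  have B := H.sb i
  have B' : SB P ω (W k) (v k) (d i) := by
    rw [hd]
    exact H.sb k
  exact no_twin B B' (H.hd i) (fun x => ⟨H.ker_le h1 x, H.ker_le (fun π' C' => (h1 π' C').symm) x⟩)
    (H.disj hne) fun U hU w hw w' hw' => H.mult U hU i k hne w hw w' hw'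

/-- A set of representatives of the blocks up to separation. -/
theorem reps (H : Fam P ω W v d) [LieAlgebra.IsKilling ℂ L] (B : Finset J) :
    ∃ S ⊆ B, B.card ≤ 2 * S.card ∧ ∀ s ∈ S, ∃ π : L →ₗ[ℂ] L, Cen L π ∧ Val P π (W s) 1 ∧
      ∀ t ∈ S, t ≠ s → Val P π (W t) 0 := by
  classical
  rcases B.eq_empty_or_nonempty with rfl | ⟨j0, hj0⟩
  · exact ⟨∅, le_rfl, by simp, fun s hs => absurd hs (Finset.notMem_empty s)⟩
  have : Nonempty J := ⟨j0⟩
  let f : J → Set (L →ₗ[ℂ] L) := fun j => {π | Cen L π ∧ Val P π (W j) 1}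
  have hfib : B.card ≤ 2 * (B.image f).card := by
    refine Finset.card_le_mul_card_image B 2 fun y _ => ?_
    have h1 : Set.InjOn d ((B.filter fun j => f j = y : Finset J) : Set J) := by
      intro i hi k hk hik
      have e1 : f i = y := (Finset.mem_filter.1 hi).2
      have e2 : f k = y := (Finset.mem_filter.1 hk).2
      refine fib_eq H (fun π C => ?_) hik
      have e3 : π ∈ f i ↔ π ∈ f k := by rw [e1, e2]
      exact ⟨fun h => (e3.1 ⟨C, h⟩).2, fun h => (e3.2 ⟨C, h⟩).2⟩
    calc (B.filter fun j => f j = y).card ≤ ({1, 3} : Finset ℕ).card := by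
          refine Finset.card_le_card_of_injOn d (fun j _ => ?_) h1
          rcases H.hd j with h | h
          · change d j ∈ _
            rw [h]
            simp
          · change d j ∈ _
            rw [h]
            simp
      _ ≤ 2 := by decide
  have hg : ∀ y ∈ B.image f, ∃ j ∈ B, f j = y := fun y hy => Finset.mem_image.1 hy
  choose! g hg1 hg2 using hg
  have hinj : Set.InjOn g ((B.image f : Finset (Set (L →ₗ[ℂ] L))) : Set (Set (L →ₗ[ℂ] L))) := by
    intro y hy z hz hyz
    rw [← hg2 y hy, ← hg2 z hz, hyz]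
  refine ⟨(B.image f).image g, ?_, ?_, ?_⟩
  · intro j hj
    obtain ⟨y, hy, rfl⟩ := Finset.mem_image.1 hj
    exact hg1 y hy
  · rw [Finset.card_image_of_injOn hinj]
    exact hfib
  intro s hs
  have hsep : ∀ t ∈ (B.image f).image g, t ≠ s → ∃ π : L →ₗ[ℂ] L, Cen L π ∧ Val P π (W s) 1 ∧
      Val P π (W t) 0 := by
    intro t ht hts
    obtain ⟨y, hy, rfl⟩ := Finset.mem_image.1 hs
    obtain ⟨z, hz, rfl⟩ := Finset.mem_image.1 ht
    have hyz : f (g z) ≠ f (g y) := by
      rw [hg2 y hy, hg2 z hz]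
      rintro rfl
      exact hts rfl
    by_contra hcon
    push Not at hcon
    apply hyz
    ext π
    constructor
    · rintro ⟨C, h⟩
      refine ⟨C, (H.val01 C _).resolve_left fun h0 => ?_⟩
      have h2 := h.compl
      have h3 := h0.compl
      rw [sub_self] at h2
      rw [sub_zero] at h3
      exact hcon _ C.compl h3 h2
    · rintro ⟨C, h⟩
      exact ⟨C, (H.val01 C _).resolve_left fun h0 => hcon π C h h0⟩
  have key : ∀ T : Finset J, T ⊆ (B.image f).image g → s ∉ T → ∃ π : L →ₗ[ℂ] L, Cen L π ∧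
      Val P π (W s) 1 ∧ ∀ t ∈ T, Val P π (W t) 0 := by
    intro T
    induction T using Finset.induction_on with
    | empty =>
      intro _ _
      refine ⟨LinearMap.id, ⟨fun _ => rfl, fun _ _ => rfl⟩, ⟨fun w _ => ?_, fun w _ => ?_,
        fun w _ => ?_⟩, fun t ht => absurd ht (Finset.notMem_empty t)⟩
      · rw [one_smul]; rfl
      · rw [one_smul]; rfl
      · rw [one_smul]; rfl
    | insert t T ht ih =>
      intro hT hsT
      rw [Finset.mem_insert, not_or] at hsT
      obtain ⟨π, C, h1, h0⟩ := ih (fun x hx => hT (Finset.mem_insert_of_mem hx)) hsT.2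
      obtain ⟨π', C', h1', h0'⟩ := hsep t (hT (Finset.mem_insert_self t T)) (Ne.symm hsT.1)
      refine ⟨π ∘ₗ π', C.mul C', ?_, fun u hu => ?_⟩
      · have := (H.sb s).val_mul C C' h1 h1'
        rwa [mul_one] at this
      · rcases Finset.mem_insert.1 hu with rfl | hu
        · obtain ⟨b, _, hb⟩ := (H.sb u).exists_val C
          have := (H.sb u).val_mul C C' hb h0'
          rwa [mul_zero] at this
        · obtain ⟨b, _, hb⟩ := (H.sb u).exists_val C'
          have := (H.sb u).val_mul C C' (h0 u hu) hb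
          rwa [zero_mul] at this
  obtain ⟨π, C, h1, h0⟩ := key (((B.image f).image g).erase s) (Finset.erase_subset _ _)
    (Finset.notMem_erase s _)
  exact ⟨π, C, h1, fun t ht hts => h0 t (Finset.mem_erase.2 ⟨hts, ht⟩)⟩

end Pool.Agent.L0h12.FT
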