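import Pool.Agent.L0h12.FT.Idem

set_option autoImplicit false
set_option linter.unusedSectionVars false
set_option linter.unusedVariables false
set_option linter.unusedSimpArgs false

/-!
# Counting the blocks on which an ideal acts nontrivially
-/

open Module Function Polynomial TensorProduct

noncomputable section

namespace Pool.Agent.L0h12.FT

open Pool.Agent.Y102 Pool.Agent.W516.DR Pool.Agent.H204R3.GP Pool.Agent.W516.KC
  Pool.Agent.H204R3.SP Pool.Agent.L0h12.FF
open Pool.Agent.N192.GP (brk Idl)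

attribute [local instance 100] LieRing.ofAssociativeRing

section Cx

variable {V : Type} [AddCommGroup V] [Module ℂ V] [FiniteDimensional ℂ V]
  {L : LieSubalgebra ℂ (Module.End ℂ V)} {ω : V →ₗ[ℂ] V →ₗ[ℂ] ℂ}
  {P : Prin L} {J : Type} {W : J → Submodule ℂ V} {v : J → V} {d : J → ℕ}

theorem tri_indep (H : Fam P ω W v d) (j : J) {a b c : ℂ}
    (h : ∀ w ∈ W j, a • P.oh w + b • P.oe w + c • P.of w = 0) : a = 0 ∧ b = 0 ∧ c = 0 := by
  have B := H.sb j
  have hodd := B.str.odd
  have hd1 : 1 ≤ d j := by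
    obtain ⟨k, hk⟩ := hodd
    omega
  have hd0 : (d j : ℂ) ≠ 0 := by exact_mod_cast (show d j ≠ 0 by omega)
  have hv0 : v j ≠ 0 := B.v0
  have hf0 : P.of (v j) ≠ 0 := by
    have := B.pv0 hd1
    rwa [pow_one] at this
  have hev : P.oe (v j) = 0 := B.str.ev
  have hhv : P.oh (v j) = (d j : ℂ) • v j := B.str.hv
  have hhf : P.oh (P.of (v j)) = ((d j : ℂ) - 2) • P.of (v j) := by
    have := B.sl.h_pow B.str.hv 1
    rw [pow_one] at this
    rw [this]
    congr 1
    push_cast
    ring
  have hef : P.oe (P.of (v j)) = (d j : ℂ) • v j := by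
    rw [B.sl.e_f, hev, map_zero, zero_add, hhv]
  have h1 := h _ B.str.mem
  rw [hev, hhv, smul_zero, add_zero] at h1
  have h2 := congrArg P.oh h1
  rw [map_add, map_smul, map_smul, map_smul, hhv, hhf, map_zero] at h2
  have hc : c = 0 := by
    have h3 : (c * (-2)) • P.of (v j) = 0 := by
      have h4 : (c * (-2)) • P.of (v j) = (a • (d j : ℂ) • (d j : ℂ) • v j +
          c • ((d j : ℂ) - 2) • P.of (v j)) - (d j : ℂ) • (a • (d j : ℂ) • v j + c • P.of (v j)) := by
        module
      rw [h4, h2, h1, smul_zero, sub_zero]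
    have h5 := (smul_eq_zero.1 h3).resolve_right hf0
    exact (mul_eq_zero.1 h5).resolve_right (by norm_num)
  rw [hc, zero_smul, add_zero] at h1
  have ha : a = 0 := by
    rw [smul_smul] at h1
    exact (mul_eq_zero.1 ((smul_eq_zero.1 h1).resolve_right hv0)).resolve_right hd0
  have h3 := h _ (B.mf _ B.str.mem)
  rw [ha, hc, zero_smul, zero_smul, zero_add, add_zero, hef, smul_smul] at h3
  exact ⟨ha, (mul_eq_zero.1 ((smul_eq_zero.1 h3).resolve_right hv0)).resolve_right hd0, hc⟩

theorem count_cx (H : Fam P ω W v d) [LieAlgebra.IsKilling ℂ L] {q : L →ₗ[ℂ] L} (C : Cen L q)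
    {K : Type} [Fintype K] (j : K → J) (hinj : Injective j) (c : ℕ) (hc : ∀ k, d (j k) = c)
    (h1 : ∀ k, Val P q (W (j k)) 1) : 3 * Fintype.card K ≤ finrank ℂ (LinearMap.range q) := by
  classical
  choose π hC hπ hS using fun k => H.sep (j k)
  let t : Fin 3 → L := ![P.h, P.e, P.f]
  let x : K × Fin 3 → LinearMap.range q := fun y => ⟨q (π y.1 (t y.2)), ⟨_, rfl⟩⟩
  have hli : LinearIndependent ℂ x := by
    rw [Fintype.linearIndependent_iff]
    intro a ha
    have key : ∀ k0 : K, a (k0, 0) = 0 ∧ a (k0, 1) = 0 ∧ a (k0, 2) = 0 := by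
      intro k0
      refine tri_indep H (j k0) fun w hw => ?_
      have h2 : ∑ y : K × Fin 3, a y • (q (π y.1 (t y.2))).1 w = 0 := by
        have h3 : (((∑ y, a y • x y : LinearMap.range q) : L).1 : Module.End ℂ V) w = 0 := by
          rw [ha]
          rfl
        have h4 : (((∑ y, a y • x y : LinearMap.range q) : L).1 : Module.End ℂ V) =
            ∑ y : K × Fin 3, a y • (q (π y.1 (t y.2))).1 := by
          rw [Submodule.coe_sum]
          have h5 : ∀ s : Finset (K × Fin 3), ((∑ y ∈ s, ((a y • x y : LinearMap.range q) : L) : L)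
              : Module.End ℂ V) = ∑ y ∈ s, a y • (q (π y.1 (t y.2))).1 := by
            intro s
            induction s using Finset.induction_on with
            | empty => rfl
            | insert y s hy ih =>
              rw [Finset.sum_insert hy, Finset.sum_insert hy, ← ih]
              rfl
          exact h5 _
        rw [h4, LinearMap.sum_apply] at h3
        exact h3
      have hv : ∀ k, Val P (q ∘ₗ π k) (W (j k0)) (if k = k0 then 1 else 0) := by
        intro k
        by_cases hk : k = k0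
        · rw [if_pos hk]
          subst hk
          have := (H.sb (j k)).val_mul C (hC k) (h1 k) (hπ k)
          rwa [mul_one] at this
        · rw [if_neg hk]
          have h5 : Val P (π k) (W (j k0)) 0 := by
            refine (H.val01 (hC k) (j k0)).resolve_right fun h6 => hk ?_
            exact hinj (hS k (j k) (j k0) (hπ k) h6 (by rw [hc, hc]))
          have := (H.sb (j k0)).val_mul C (hC k) (h1 k0) h5
          rwa [mul_zero] at this
      rw [Fintype.sum_prod_type] at h2
      rw [Finset.sum_eq_single k0] at h2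
      · rw [Fin.sum_univ_three] at h2
        have e0 := (hv k0).vh w hw
        have e1 := (hv k0).ve w hw
        have e2 := (hv k0).vf w hw
        rw [if_pos rfl, one_smul] at e0 e1 e2
        change a (k0, 0) • ((q ∘ₗ π k0) P.h).1 w + a (k0, 1) • ((q ∘ₗ π k0) P.e).1 w +
          a (k0, 2) • ((q ∘ₗ π k0) P.f).1 w = 0 at h2
        rw [e0, e1, e2] at h2
        exact h2
      · intro k _ hk
        rw [Fin.sum_univ_three]
        have e0 := (hv k).vh w hw
        have e1 := (hv k).ve w hw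
        have e2 := (hv k).vf w hw
        rw [if_neg hk, zero_smul] at e0 e1 e2
        change a (k, 0) • ((q ∘ₗ π k) P.h).1 w + a (k, 1) • ((q ∘ₗ π k) P.e).1 w +
          a (k, 2) • ((q ∘ₗ π k) P.f).1 w = 0
        rw [e0, e1, e2, smul_zero, smul_zero, smul_zero, add_zero, add_zero]
      · intro h
        exact absurd (Finset.mem_univ _) h
    rintro ⟨k, s⟩
    fin_cases s
    · exact (key k).1
    · exact (key k).2.1
    · exact (key k).2.2
  have h2 := hli.fintype_card_le_finrank
  rw [Fintype.card_prod, Fintype.card_fin, mul_comm] at h2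
  exact h2

end Cx

variable {g : ℕ} {A : AbVar g} {𝔥 𝔫 : Submodule ℚ (Module.End ℚ A.H1)}
  {P : Fin 0 → Module.End ℚ A.H1}

theorem cx_idl (hI : Idl 𝔫 𝔥) {X : Module.End ℂ (ℂ ⊗[ℚ] A.H1)} (hX : X ∈ cx 𝔥)
    {N : Module.End ℂ (ℂ ⊗[ℚ] A.H1)} (hN : N ∈ cx 𝔫) : X * N - N * X ∈ cx 𝔫 := by
  induction hX using Submodule.span_induction with
  | mem X hX =>
    obtain ⟨X, hX, rfl⟩ := hX
    induction hN using Submodule.span_induction with
    | mem N hN =>
      obtain ⟨N, hN, rfl⟩ := hN
      rw [← bc_br]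
      exact bc_mem (hI.2 X hX N hN)
    | zero => rw [mul_zero, zero_mul, sub_zero]; exact Submodule.zero_mem _
    | add a b _ _ ha hb =>
      rw [mul_add, add_mul, add_sub_add_comm]
      exact Submodule.add_mem _ ha hb
    | smul c a _ ha =>
      rw [mul_smul_comm, smul_mul_assoc, ← smul_sub]
      exact Submodule.smul_mem _ _ ha
  | zero => rw [mul_zero, zero_mul, sub_zero]; exact Submodule.zero_mem _
  | add a b _ _ ha hb =>
    rw [mul_add, add_mul, add_sub_add_comm]
    exact Submodule.add_mem _ ha hb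
  | smul c a _ ha =>
    rw [mul_smul_comm, smul_mul_assoc, ← smul_sub]
    exact Submodule.smul_mem _ _ ha

/-- The ideal over the complex numbers. -/
def KI (hF : A.Full 𝔥) (hI : Idl 𝔫 𝔥) : LieIdeal ℂ (LH hF) where
  carrier := {x | x.1 ∈ cx 𝔫}
  zero_mem' := (cx 𝔫).zero_mem
  add_mem' := fun ha hb => (cx 𝔫).add_mem ha hb
  smul_mem' := fun c _ ha => (cx 𝔫).smul_mem c ha
  lie_mem := fun {x m} hm => cx_idl hI x.2 hm

theorem mem_KI {hF : A.Full 𝔥} {hI : Idl 𝔫 𝔥} {x : LH hF} : x ∈ KI hF hI ↔ x.1 ∈ cx 𝔫 := Iff.rfl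

theorem ext_JJ (H : Sys A P) {X Y : Module.End ℂ (ℂ ⊗[ℚ] A.H1)}
    (h : ∀ j : FF.JJ A P, ∀ x ∈ EE A P j.1, X x = Y x) : X = Y := by
  refine LinearMap.ext fun z => ?_
  have hz : z ∈ ⨆ i : FF.JJ A P, EE A P i.1 := by rw [H.iSup_JJ]; trivial
  induction hz using Submodule.iSup_induction' with
  | mem i z hz => exact h i z hz
  | zero => rw [map_zero, map_zero]
  | add a b _ _ ha hb => rw [map_add, map_add, ha, hb]

/-- A bad idempotent contains a block on which the complementary ideal acts nontrivially. -/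
theorem exists_block (hF : A.Full 𝔥) (hI : Idl 𝔫 𝔥) (H : Sys A P)
    [LieAlgebra.IsKilling ℂ (LH hF)] {p : Prin (LH hF)} {v : FF.JJ A P → ℂ ⊗[ℚ] A.H1}
    {d : FF.JJ A P → ℕ} (F : Fam p (omC A) (fun j : FF.JJ A P => EE A P j.1) v d)
    {q : LH hF →ₗ[ℂ] LH hF} (C : Cen (LH hF) q) (hq1 : ∀ x, q x ∈ KI hF hI)
    {f : Module.End ℚ A.H1} (hf : f ∈ A.EA) (hff : f * f = f) (hbad : ¬ Gd 𝔥 𝔫 f) :
    ∃ j : FF.JJ A P, (∀ x ∈ EE A P j.1, f.baseChange ℂ x = x) ∧
      Val p (LinearMap.id - q) (EE A P j.1) 1 := by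
  by_contra hcon
  push Not at hcon
  apply hbad
  have hf' : f ∈ ZZ A P := ⟨hf, fun i => i.elim0⟩
  -- the complementary ideal acts trivially on the image
  have h1 : ∀ x : LH hF, ((LinearMap.id - q : LH hF →ₗ[ℂ] LH hF) x).1 * f.baseChange ℂ = 0 := by
    intro x
    refine ext_JJ H fun j z hz => ?_
    rw [Module.End.mul_apply, LinearMap.zero_apply, mem_EE.1 hz ⟨f, hf'⟩, map_smul]
    by_cases hc : j.1 ⟨f, hf'⟩ = 0
    · rw [hc, zero_smul]
    have hc1 : j.1 ⟨f, hf'⟩ = 1 := by
      have h2 := H.char_mul j hf' hf'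
      have h3 : (⟨f * f, H.mulZ hf' hf'⟩ : ZZ A P) = ⟨f, hf'⟩ := Subtype.ext hff
      rw [h3] at h2
      have h4 : j.1 ⟨f, hf'⟩ * (j.1 ⟨f, hf'⟩ - 1) = 0 := by linear_combination -h2
      exact sub_eq_zero.1 ((mul_eq_zero.1 h4).resolve_left hc)
    have h2 : Val p (LinearMap.id - q) (EE A P j.1) 0 := by
      refine (F.val01 C.compl j).resolve_right (hcon j fun y hy => ?_)
      rw [mem_EE.1 hy ⟨f, hf'⟩, hc1, one_smul]
    rw [val_zero (F.irr j) (F.nd j) F.sk C.compl h2 x z hz, smul_zero]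
  intro X hX
  have h2 := h1 ⟨X.baseChange ℂ, bc_mem hX⟩
  let x : LH hF := ⟨X.baseChange ℂ, bc_mem hX⟩
  have h3 : X.baseChange ℂ * f.baseChange ℂ = (q x).1 * f.baseChange ℂ := by
    rw [← sub_eq_zero, ← sub_mul]
    exact h2
  have h4 : (X * f).baseChange ℂ ∈ cx (𝔫.map (LinearMap.mulRight ℚ f)) := by
    rw [bc_mul, h3]
    have h5 := hq1 x
    rw [mem_KI] at h5
    clear h2 h3
    generalize (q x).1 = N at h5
    induction h5 using Submodule.span_induction with
    | mem N hN =>
      obtain ⟨N, hN, rfl⟩ := hN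
      rw [← bc_mul]
      exact bc_mem ⟨N, hN, rfl⟩
    | zero => rw [zero_mul]; exact Submodule.zero_mem _
    | add a b _ _ ha hb => rw [add_mul]; exact Submodule.add_mem _ ha hb
    | smul c a _ ha => rw [smul_mul_assoc]; exact Submodule.smul_mem _ _ ha
  obtain ⟨N, hN, h5⟩ := mem_of_bc h4
  exact ⟨N, hN, h5.symm⟩

/-- The rank of the complementary ideal. -/
theorem rank_le (hF : A.Full 𝔥) (hI : Idl 𝔫 𝔥) {q : LH hF →ₗ[ℂ] LH hF}
    (hq2 : ∀ x ∈ KI hF hI, q x = x) {C : Submodule ℚ (Module.End ℚ A.H1)} (hC : C ≤ 𝔥)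
    (hC2 : 𝔥 ≤ 𝔫 ⊔ C) : finrank ℂ (LinearMap.range (LinearMap.id - q)) ≤ finrank ℚ C := by
  classical
  obtain ⟨b⟩ := exists_bas C
  let y : Fin (finrank ℚ C) → LH hF := fun i =>
    ⟨(b i : Module.End ℚ A.H1).baseChange ℂ, bc_mem (hC (b i).2)⟩
  have h1 : LinearMap.range (LinearMap.id - q) ≤
      Submodule.span ℂ (Set.range fun i => (LinearMap.id - q : LH hF →ₗ[ℂ] LH hF) (y i)) := by
    rintro _ ⟨x, rfl⟩
    -- decomposition
    have h2 : ∃ n ∈ KI hF hI, ∃ z ∈ Submodule.span ℂ (Set.range y), x = n + z := by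
      obtain ⟨X, hX⟩ := x
      have hX' : X ∈ cx 𝔥 := hX
      have key : ∀ (X : Module.End ℂ (ℂ ⊗[ℚ] A.H1)) (_ : X ∈ cx 𝔥), ∃ n ∈ KI hF hI,
          ∃ z ∈ Submodule.span ℂ (Set.range y), X = n.1 + z.1 := by
        intro X hX
        induction hX using Submodule.span_induction with
        | mem X hX =>
          obtain ⟨X, hX, rfl⟩ := hX
          obtain ⟨N, hN, Z, hZ, rfl⟩ := Submodule.mem_sup.1 (hC2 hX)
          refine ⟨⟨N.baseChange ℂ, bc_mem (hI.1 hN)⟩, bc_mem hN, ⟨Z.baseChange ℂ, bc_mem (hC hZ)⟩,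
            ?_, LinearMap.baseChange_add _ _⟩
          have h3 := congrArg Subtype.val (b.sum_repr ⟨Z, hZ⟩)
          have h4 : (⟨Z.baseChange ℂ, bc_mem (hC hZ)⟩ : LH hF) =
              ∑ i, ((b.repr ⟨Z, hZ⟩ i : ℚ) : ℂ) • y i := by
            refine Subtype.ext ?_
            have h5 : ∀ s : Finset (Fin (finrank ℚ C)), ((∑ i ∈ s, ((b.repr ⟨Z, hZ⟩ i : ℚ) : ℂ) • y i
                : LH hF) : Module.End ℂ (ℂ ⊗[ℚ] A.H1)) =
                (∑ i ∈ s, b.repr ⟨Z, hZ⟩ i • (b i : Module.End ℚ A.H1)).baseChange ℂ := by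
              intro s
              induction s using Finset.induction_on with
              | empty => rw [Finset.sum_empty, Finset.sum_empty, LinearMap.baseChange_zero]; rfl
              | insert i s hi ih =>
                rw [Finset.sum_insert hi, Finset.sum_insert hi, LinearMap.baseChange_add, ← ih,
                  LinearMap.baseChange_smul]
                change ((b.repr ⟨Z, hZ⟩ i : ℚ) : ℂ) • (b i : Module.End ℚ A.H1).baseChange ℂ + _ = _
                rw [Rat.cast_smul_eq_qsmul]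
            have h6 : Z = ∑ i, b.repr ⟨Z, hZ⟩ i • (b i : Module.End ℚ A.H1) := by
              rw [Submodule.coe_sum] at h3
              exact h3.symm
            rw [h5]
            exact congrArg (LinearMap.baseChange ℂ) h6
          rw [h4]
          exact Submodule.sum_mem _ fun i _ => Submodule.smul_mem _ _ (Submodule.subset_span ⟨i, rfl⟩)
        | zero => exact ⟨0, Submodule.zero_mem _, 0, Submodule.zero_mem _, (add_zero _).symm⟩
        | add a c _ _ ha hc =>
          obtain ⟨n, hn, z, hz, h⟩ := ha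
          obtain ⟨n', hn', z', hz', h'⟩ := hc
          refine ⟨n + n', (KI hF hI).add_mem hn hn', z + z', Submodule.add_mem _ hz hz', ?_⟩
          rw [h, h']
          change _ = (n.1 + n'.1) + (z.1 + z'.1)
          abel
        | smul c a _ ha =>
          obtain ⟨n, hn, z, hz, h⟩ := ha
          refine ⟨c • n, (KI hF hI).smul_mem c hn, c • z, Submodule.smul_mem _ _ hz, ?_⟩
          rw [h, smul_add]
          rfl
      obtain ⟨n, hn, z, hz, h⟩ := key X hX'
      exact ⟨n, hn, z, hz, Subtype.ext h⟩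
    obtain ⟨n, hn, z, hz, rfl⟩ := h2
    have h3 : (LinearMap.id - q : LH hF →ₗ[ℂ] LH hF) n = 0 := by
      rw [LinearMap.sub_apply, LinearMap.id_apply, hq2 n hn, sub_self]
    rw [map_add, h3, zero_add]
    have h4 := Submodule.mem_map_of_mem (f := (LinearMap.id - q : LH hF →ₗ[ℂ] LH hF)) hz
    rw [Submodule.map_span, ← Set.range_comp] at h4
    exact h4
  calc finrank ℂ (LinearMap.range (LinearMap.id - q))
      ≤ finrank ℂ (Submodule.span ℂ (Set.range fun i =>
        (LinearMap.id - q : LH hF →ₗ[ℂ] LH hF) (y i))) := Submodule.finrank_mono h1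
    _ ≤ Fintype.card (Fin (finrank ℚ C)) := finrank_range_le_card _
    _ = finrank ℚ C := Fintype.card_fin _

/-- **The number of the bad idempotents.** -/
theorem count (hF : A.Full 𝔥) (hI : Idl 𝔫 𝔥) (H : Sys A P)
    (hb : ∀ j : FF.JJ A P, finrank ℂ (EE A P j.1) ≤ 4) {C : Submodule ℚ (Module.End ℚ A.H1)}
    (hC : C ≤ 𝔥) (hC2 : 𝔥 ≤ 𝔫 ⊔ C) {k : ℕ} (f : Fin k → Module.End ℚ A.H1)
    (hf : ∀ i, f i ∈ A.EA) (hff : ∀ i, f i * f i = f i) (hort : ∀ i i', i ≠ i' → f i * f i' = 0)
    (hbad : ∀ i, ¬ Gd 𝔥 𝔫 (f i)) : 3 * k ≤ 2 * finrank ℚ C := by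
  classical
  obtain ⟨hK, p, v, d, F⟩ := famH hF H hb
  obtain ⟨q, Cq, hq1, hq2⟩ := exists_cen (KI hF hI)
  choose j hj1 hj2 using fun i => exists_block hF hI H F Cq hq1 (hf i) (hff i) (hbad i)
  have hinj : Injective j := by
    intro i i' hii
    by_contra hne
    refine (j i).2 ?_
    rw [eq_bot_iff]
    intro x hx
    have h1 := hj1 i x hx
    have h2 : (f i').baseChange ℂ x = x := hj1 i' x (by rw [← hii]; exact hx)
    have h3 : (f i * f i').baseChange ℂ x = x := by
      rw [bc_mul, Module.End.mul_apply, h2, h1]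
    rw [hort i i' hne, LinearMap.baseChange_zero, LinearMap.zero_apply] at h3
    rw [Submodule.mem_bot, ← h3]
  have hr := rank_le hF hI hq2 hC hC2
  have key : ∀ c : ℕ, 3 * (Finset.univ.filter fun i => d (j i) = c).card ≤ finrank ℚ C := by
    intro c
    have h1 := count_cx F Cq.compl (K := {i : Fin k // d (j i) = c}) (fun i => j i.1)
      (fun i i' h => Subtype.ext (hinj h)) c (fun i => i.2) fun i => hj2 i.1
    rw [Fintype.card_subtype] at h1
    exact h1.trans hr
  have h1 := key 1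
  have h3 := key 3
  have h4 : (Finset.univ.filter fun i => d (j i) = 1).card +
      (Finset.univ.filter fun i => d (j i) = 3).card = k := by
    rw [← Finset.card_union_of_disjoint]
    · rw [← Finset.filter_or, Finset.filter_true_of_mem fun i _ => F.hd (j i), Finset.card_univ,
        Fintype.card_fin]
    · rw [Finset.disjoint_filter]
      intro i _ h5 h6
      omega
  omega

end Pool.Agent.L0h12.FT
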