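import Mathlib

set_option autoImplicit false

/-!
# Dual bases consisting of evaluations
-/

open Module

namespace Pool.Agent.L0h12.FT

theorem exists_pts {M X : Type} [AddCommGroup M] [Module ℚ M] [FiniteDimensional ℚ M]
    (ev : X → M →ₗ[ℚ] ℚ) (hev : ∀ m, (∀ x, ev x m = 0) → m = 0) :
    ∃ (K : ℕ) (f : Fin K → M) (x : Fin K → X), ∀ m, m = ∑ k, ev (x k) m • f k := by
  classical
  have htop : Submodule.span ℚ (Set.range ev) = ⊤ := by
    by_contra hne
    obtain ⟨F, hF, hle⟩ := Submodule.exists_le_ker_of_lt_top _ (lt_top_iff_ne_top.2 hne)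
    apply hF
    have h1 : (Module.evalEquiv ℚ M).symm F = 0 := by
      refine hev _ fun x => ?_
      have h2 : F (ev x) = 0 := LinearMap.mem_ker.1 (hle (Submodule.subset_span ⟨x, rfl⟩))
      have h3 : (Module.evalEquiv ℚ M ((Module.evalEquiv ℚ M).symm F)) (ev x) =
          ev x ((Module.evalEquiv ℚ M).symm F) := rfl
      rw [LinearEquiv.apply_symm_apply, h2] at h3
      exact h3.symm
    exact (LinearEquiv.map_eq_zero_iff _).1 h1
  obtain ⟨b, hb1, hb2, hb3⟩ := Submodule.exists_fun_fin_finrank_span_eq ℚ (Set.range ev)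
  let B : Basis _ ℚ (M →ₗ[ℚ] ℚ) := Basis.mk hb3 (hb2.trans htop).ge
  choose x hx using hb1
  have hB : ∀ k, B k = ev (x k) := fun k => by rw [hx k]; exact Basis.mk_apply hb3 _ k
  refine ⟨_, fun k => (Module.evalEquiv ℚ M).symm (B.coord k), x, fun m => ?_⟩
  have h1 := B.sum_dual_apply_smul_coord (Module.evalEquiv ℚ M m)
  have h2 := congrArg (Module.evalEquiv ℚ M).symm h1
  rw [LinearEquiv.symm_apply_apply, map_sum] at h2
  refine h2.symm.trans (Finset.sum_congr rfl fun k _ => ?_)
  rw [map_smul, hB]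
  rfl

end Pool.Agent.L0h12.FT
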