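import Pool.Agent.L0h12.FT.Act
import Pool.Agent.L0h12.FT.Count
import Pool.Agent.L0h12.FT.Pts

set_option autoImplicit false
set_option linter.unusedSectionVars false
set_option linter.unusedVariables false

/-!
# The splitting of mixed forms
-/

open Module Function TensorProduct

noncomputable section

namespace Pool.Agent.L0h12.FT

open Pool.Agent.Y102 Pool.Agent.W516.DR Pool.Agent.H204R3.GP Pool.Agent.W516.KC
  Pool.Agent.H204R3.SP Pool.Agent.N192.GP Pool.Agent.L0h12.FF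

variable {g d : ℕ} (A : AbVar g) (V : DRS d)

/-- The image of the total Lie algebra in the endomorphisms of the homology. -/
def hA : Submodule ℚ (Module.End ℚ A.H1) := (LG (hh2 A V)).map (pA A)

/-- The ideal of the elements which act trivially on `V` and on the twist. -/
def nA : Submodule ℚ (Module.End ℚ A.H1) :=
  ((LG (hh2 A V) ⊓ at0 (Sum.inr ())) ⊓ tw0).map (pA A)

theorem fullA : A.Full (hA A V) := gg_full (fun _ : Unit => A) (fun _ : Unit => V) ()

theorem idlA : Idl (nA A V) (hA A V) := by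
  refine ⟨Submodule.map_mono (inf_le_left.trans inf_le_left), ?_⟩
  rintro _ ⟨x, hx, rfl⟩ _ ⟨y, hy, rfl⟩
  refine ⟨x * y - y * x, ⟨(idl_at0 (hh2 A V) (Sum.inr ())).2 x hx y hy.1, br_snd x y⟩, ?_⟩
  exact pr_hm (Sum.inl ()) (LG (hh2 A V)) x hx y hy.1.1

variable {A V}

theorem brkA (hs : ∀ Q ∈ A.EA, ∀ u v, A.om (Q u) v = A.om u (Q v)) :
    hA A V ≤ brk (hA A V) (hA A V) := perfH (fullA A V) hs

theorem compl_gen {M Q : Type} [AddCommGroup M] [Module ℚ M] [AddCommGroup Q] [Module ℚ Q]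
    [FiniteDimensional ℚ M] [FiniteDimensional ℚ Q] (𝔩 : Submodule ℚ M) (r : M →ₗ[ℚ] Q) :
    ∃ C0 ≤ 𝔩, finrank ℚ C0 ≤ finrank ℚ Q ∧ ∀ x ∈ 𝔩, ∃ y ∈ 𝔩, r y = 0 ∧ ∃ z ∈ C0, x = y + z := by
  obtain ⟨C1, hC1⟩ := Submodule.exists_isCompl (LinearMap.ker (r.domRestrict 𝔩))
  refine ⟨C1.map 𝔩.subtype, ?_, ?_, fun x hx => ?_⟩
  · rintro _ ⟨x, _, rfl⟩
    exact x.2
  · have h1 : finrank ℚ (C1.map 𝔩.subtype) = finrank ℚ C1 :=
      (LinearEquiv.finrank_eq (Submodule.equivMapOfInjective _ 𝔩.subtype_injective C1)).symm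
    have h2 : Injective ((r.domRestrict 𝔩).comp C1.subtype) := by
      rw [← LinearMap.ker_eq_bot, LinearMap.ker_comp, eq_bot_iff]
      intro x hx
      have h3 : (x : 𝔩) ∈ LinearMap.ker (r.domRestrict 𝔩) ⊓ C1 := ⟨hx, x.2⟩
      rw [hC1.inf_eq_bot] at h3
      exact Subtype.ext ((Submodule.mem_bot ℚ).1 h3)
    rw [h1]
    exact LinearMap.finrank_le_finrank_of_injective h2
  · have h4 : (⟨x, hx⟩ : 𝔩) ∈ LinearMap.ker (r.domRestrict 𝔩) ⊔ C1 := by
      rw [hC1.sup_eq_top]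
      trivial
    obtain ⟨y, hy, z, hz, hyz⟩ := Submodule.mem_sup.1 h4
    exact ⟨y.1, y.2, hy, z.1, ⟨z, hz, rfl⟩, congrArg Subtype.val hyz.symm⟩

/-- The ideal has a small complement. -/
theorem exists_compl (hs : ∀ Q ∈ A.EA, ∀ u v, A.om (Q u) v = A.om u (Q v)) :
    ∃ C ≤ hA A V, finrank ℚ C ≤ d ^ 2 ∧ hA A V ≤ nA A V ⊔ C := by
  classical
  let r : RR (nd g d) →ₗ[ℚ] Module.End ℚ (Fin d → ℚ) :=
    { toFun := fun ℓ => xV ℓ
      map_add' := fun _ _ => rfl
      map_smul' := fun _ _ => rfl }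
  obtain ⟨C0, hC0, hfr, hdec⟩ := compl_gen (LG (hh2 A V) ⊓ tw0) r
  rw [Module.finrank_linearMap, Module.finrank_fin_fun, ← pow_two] at hfr
  have hpr : hA A V ≤ (LG (hh2 A V) ⊓ tw0).map (pA A) :=
    sep_tw0 (η := hh2 A V) (s := Sum.inl ()) rfl (brkA (V := V) hs)
  refine ⟨C0.map (pA A), Submodule.map_mono (hC0.trans inf_le_left),
    (Submodule.finrank_map_le _ _).trans hfr, ?_⟩
  refine le_trans hpr ?_
  rintro _ ⟨x, hx, rfl⟩
  obtain ⟨y, hy, hy0, z, hz, rfl⟩ := hdec x hx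
  rw [map_add]
  refine Submodule.add_mem_sup ?_ ?_
  · exact ⟨y, ⟨⟨hy.1, hy0⟩, hy.2⟩, rfl⟩
  · exact ⟨z, hz, rfl⟩

/-- Structures of CM type. -/
theorem full_of_cm (hs : ∀ Q ∈ A.EA, ∀ u v, A.om (Q u) v = A.om u (Q v))
    (h1 : ∀ X Y : Module.End ℚ (Fin d → ℚ),
      (∀ P, IsDeRhamBettiEnd QBar V.eta P → X * P = P * X) →
      (∀ P, IsDeRhamBettiEnd QBar V.eta P → Y * P = P * Y) → X * Y = Y * X) :
    hA A V ≤ nA A V := by
  have hperf := brkA (A := A) (V := V) hs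
  have key : ∀ x ∈ LG (hh2 A V), ∀ P : Module.End ℚ (Fin d → ℚ),
      IsDeRhamBettiEnd QBar V.eta P → xV x * P = P * xV x := by
    intro x hx P hP
    have hP' : IsDeRhamBettiEnd QBar (hh2 A V (Sum.inr ()) :
        Fin d → ((Fin d → ℚ) →ₗ[ℚ] ℂ)) P := by
      change IsDeRhamBettiEnd QBar (V.basis : Fin d → ((Fin d → ℚ) →ₗ[ℚ] ℂ)) P
      rw [V.coe_basis]
      exact hP
    let P' : Module.End ℚ (Fin (nd g d (Sum.inr ())) → ℚ) := P
    have h2 : LG (hh2 A V) ≤ cent (Sum.inr ()) P' :=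
      LG_le _ (cent_br (Sum.inr ()) P') fun D lam => NN_comm_end (hh2 A V (Sum.inr ())) hP' D lam
    exact h2 hx
  have h2 : hA A V ≤ (LG (hh2 A V) ⊓ at0 (Sum.inr ())).map (pr (Sum.inl ())) :=
    sep_comm (η := hh2 A V) (s := Sum.inl ()) rfl hperf (t := Sum.inr ())
      fun x hx y hy => h1 _ _ (key x hx) (key y hy)
  exact step (pr_hm (Sum.inl ()) (LG (hh2 A V))) hperf inf_le_left inf_le_left h2 h2
    fun x hx y hy => ⟨(idl_at0 (hh2 A V) (Sum.inr ())).2 x hx.1 y hy, br_snd x y⟩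

variable {κ κ' : Type} [Fintype κ] [DecidableEq κ] [Fintype κ'] [DecidableEq κ'] {w : ℤ}
  {φ : MultilinearMap ℚ (fun _ : κ => A.H1) (MultilinearMap ℚ (fun _ : κ' => Fin d → ℚ) ℚ)}

theorem n_acts (h : Mix A V w φ) {N : Module.End ℚ A.H1} (hN : N ∈ nA A V) (u : κ → A.H1)
    (v : κ' → Fin d → ℚ) : ∑ l, φ (update u l (N (u l))) v = 0 := by
  obtain ⟨ℓ, ⟨⟨hℓ, h0⟩, h2⟩, rfl⟩ := hN
  have h3 := act_formula h hℓ u v
  have e1 : xV ℓ = 0 := h0
  have e2 : ℓ.2 = 0 := h2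
  have e3 : pA A ℓ = xA A ℓ := by
    rw [pA_apply, e2, zero_div, zero_smul, sub_zero]
  rw [e1, e2, mul_zero, zero_mul] at h3
  have h4 : ∑ l, φ u (update v l ((0 : Module.End ℚ (Fin d → ℚ)) (v l))) = 0 :=
    Finset.sum_eq_zero fun l _ => (φ u).map_coord_zero l (by rw [update_self]; rfl)
  rw [h4, add_zero] at h3
  rw [e3]
  exact h3

/-- The whole Lie algebra acts trivially on forms which are supported on a good idempotent. -/
theorem h_acts (h : Mix A V w φ) {e : Module.End ℚ A.H1} (he : e ∈ A.EA)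
    (hg : Gd (hA A V) (nA A V) e) (hφ : ∀ u v, φ (fun l => e (u l)) v = φ u v)
    {X : Module.End ℚ A.H1} (hX : X ∈ hA A V) (u : κ → A.H1) (v : κ' → Fin d → ℚ) :
    ∑ l, φ (update u l (X (u l))) v = 0 := by
  obtain ⟨N, hN, h1⟩ := hg X hX
  have cX := H_comm (fullA A V) hX he
  have cN := H_comm (fullA A V) ((idlA A V).1 hN) he
  rw [← n_acts h hN u v]
  refine Finset.sum_congr rfl fun l _ => ?_
  rw [← hφ, ← hφ (update u l (N (u l)))]
  have h2 : ∀ Y : Module.End ℚ A.H1, Y * e = e * Y → (fun l' => e (update u l (Y (u l)) l')) =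
      update (fun l' => e (u l')) l ((Y * e) (u l)) := by
    intro Y hY
    funext l'
    by_cases h3 : l' = l
    · subst h3
      rw [update_self, update_self, hY]
      rfl
    · rw [update_of_ne h3, update_of_ne h3]
  rw [h2 X cX, h2 N cN, h1]

/-- The action on the second variables. -/
theorem v_acts (h : Mix A V w φ) {e : Module.End ℚ A.H1} (he : e ∈ A.EA)
    (hg : Gd (hA A V) (nA A V) e) (hφ : ∀ u v, φ (fun l => e (u l)) v = φ u v) {m : ℤ}
    (hm : (Fintype.card κ : ℤ) = 2 * m) (u : κ → A.H1) :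
    IsTw V.eta (w - m) (φ u) := by
  have h0 : IsTw (V.basis : Fin d → ((Fin d → ℚ) →ₗ[ℚ] ℂ)) (w - m) (φ u) := by
    refine tw_of_acts V.basis fun D lam v => ?_
    have hℓ := gn_mem_LG (hh2 A V) D lam
    have h1 := act_formula h hℓ u v
    have h2 := h_acts h he hg hφ (X := pA A (gn (hh2 A V) D lam)) ⟨_, hℓ, rfl⟩ u v
    have h3 : ∀ l, φ (update u l (pA A (gn (hh2 A V) D lam) (u l))) v =
        φ (update u l (xA A (gn (hh2 A V) D lam) (u l))) v -
          (gn (hh2 A V) D lam).2 / 2 * φ u v := by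
      intro l
      have h4 : pA A (gn (hh2 A V) D lam) (u l) = xA A (gn (hh2 A V) D lam) (u l) +
            (-((gn (hh2 A V) D lam).2 / 2)) • u l := by
        rw [pA_apply, neg_smul, ← sub_eq_add_neg]
        rfl
      rw [h4, φ.map_update_add, φ.map_update_smul, update_eq_self]
      change φ _ v + _ * φ u v = _
      ring
    rw [Finset.sum_congr rfl fun l _ => h3 l, Finset.sum_sub_distrib, Finset.sum_const,
      Finset.card_univ, nsmul_eq_mul] at h2
    have h5 : (Fintype.card κ : ℚ) = 2 * m := by exact_mod_cast hm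
    have h6 : (gn (hh2 A V) D lam).2 = tt D lam := rfl
    rw [h5, h6] at h2
    rw [h6] at h1
    change (∑ l, φ u (update v l (xV (gn (hh2 A V) D lam) (v l)))) = _
    push_cast
    linear_combination h1 - h2
  rw [V.coe_basis] at h0
  exact h0

end Pool.Agent.L0h12.FT
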