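import Pool.Agent.L0h12.FF.Gen4
import Pool.Agent.Y102.V12

set_option autoImplicit false
set_option linter.unusedSectionVars false
set_option linter.unusedVariables false
set_option linter.unusedSimpArgs false

/-!
# The blocks for full subalgebras
-/

open Module Function Polynomial TensorProduct

noncomputable section

namespace Pool.Agent.L0h12.FT

open Pool.Agent.Y102 Pool.Agent.W516.DR Pool.Agent.H204R3.GP Pool.Agent.W516.KC
  Pool.Agent.H204R3.SP Pool.Agent.L0h12.FF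

attribute [local instance 100] LieRing.ofAssociativeRing

variable {g : ℕ} {A : AbVar g} {𝔥 : Submodule ℚ (Module.End ℚ A.H1)}

theorem skewH (hF : A.Full 𝔥) {X : Module.End ℂ (ℂ ⊗[ℚ] A.H1)} (hX : X ∈ cx 𝔥) :
    Skew (omC A) X := by
  induction hX using Submodule.span_induction with
  | mem X hX =>
    obtain ⟨P, hP, rfl⟩ := hX
    exact fun u w => skew_ext A.om (omC A) (omC_one A) (A.NA_skew (hF.le hP)) u w
  | zero => intro u w; simp
  | add a b _ _ ha hb =>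
    intro u w
    have e1 := ha u w
    have e2 := hb u w
    simp only [LinearMap.add_apply, map_add]
    linear_combination e1 + e2
  | smul c a _ ha =>
    intro u w
    have e1 := ha u w
    simp only [LinearMap.smul_apply, map_smul, smul_eq_mul]
    linear_combination c * e1

/-- The Lie algebra over the complex numbers. -/
def LH (hF : A.Full 𝔥) : LieSubalgebra ℂ (Module.End ℂ (ℂ ⊗[ℚ] A.H1)) :=
  { cx 𝔥 with
    lie_mem' := fun {X Y} hX hY => by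
      have h1 := cx_br (S := 𝔥) (T := cx 𝔥) (fun X hX Y hY => by
        rw [← bc_br]
        exact bc_mem (hF.br X hX Y hY)) X hX Y hY
      exact h1 }

theorem mem_LH {hF : A.Full 𝔥} {X : Module.End ℂ (ℂ ⊗[ℚ] A.H1)} : X ∈ LH hF ↔ X ∈ cx 𝔥 := Iff.rfl

theorem commH (hF : A.Full 𝔥) {P : Module.End ℚ A.H1} (hP : ∀ X ∈ 𝔥, X * P = P * X) : P ∈ A.EA :=
  fun X hX => hF.comm P hP X (A.LA_le_NA hX)

theorem H_comm (hF : A.Full 𝔥) {X P : Module.End ℚ A.H1} (hX : X ∈ 𝔥) (hP : P ∈ A.EA) :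
    X * P = P * X := A.NA_comm (hF.le hX) hP

/-- Endomorphisms which commute with the de Rham-Betti endomorphisms preserve the stable subspaces. -/
theorem cx_memH (hF : A.Full 𝔥) {T : Module.End ℂ (ℂ ⊗[ℚ] A.H1)}
    (hT : ∀ Q ∈ A.EA, T * Q.baseChange ℂ = Q.baseChange ℂ * T) (U : Submodule ℂ (ℂ ⊗[ℚ] A.H1))
    (hU : ∀ X ∈ cx 𝔥, ∀ u ∈ U, X u ∈ U) : ∀ u ∈ U, T u ∈ U := by
  have h1 : T ∈ extEnd ℂ (fun X => X ∈ Algebra.adjoin ℚ (𝔥 : Set (Module.End ℚ A.H1))) :=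
    end_mem_span _ T fun lam => mem_adjoin_of_comm hF.semi fun Q hQ =>
      comm_cmp (hT Q (commH hF hQ)) lam
  have h2 : ∀ X ∈ Algebra.adjoin ℚ (𝔥 : Set (Module.End ℚ A.H1)), ∀ u ∈ U,
        X.baseChange ℂ u ∈ U := by
    intro X hX
    refine Algebra.adjoin_induction (p := fun X _ => ∀ u ∈ U, X.baseChange ℂ u ∈ U) ?_ ?_ ?_ ?_ hX
    · intro X hX u hu
      exact hU _ (bc_mem hX) u hu
    · intro c u hu
      have h3 : (algebraMap ℚ (Module.End ℚ A.H1) c).baseChange ℂ u = (c : ℂ) • u := by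
        rw [Algebra.algebraMap_eq_smul_one, LinearMap.baseChange_smul, LinearMap.smul_apply,
          Rat.cast_smul_eq_qsmul]
        congr 1
        exact LinearMap.congr_fun (LinearMap.baseChange_id (R := ℚ) (A := ℂ) (M := A.H1)) u
      rw [h3]
      exact U.smul_mem _ hu
    · intro a b _ _ ha hb u hu
      rw [LinearMap.baseChange_add, LinearMap.add_apply]
      exact U.add_mem (ha u hu) (hb u hu)
    · intro a b _ _ ha hb u hu
      rw [bc_mul, Module.End.mul_apply]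
      exact ha _ (hb u hu)
  unfold extEnd at h1
  clear hT
  induction h1 using Submodule.span_induction with
  | mem T hT' =>
    obtain ⟨X, hX, rfl⟩ := hT'
    exact h2 X hX
  | zero => intro u _; exact U.zero_mem
  | add a b _ _ ha hb => intro u hu; exact U.add_mem (ha u hu) (hb u hu)
  | smul c a _ ha => intro u hu; exact U.smul_mem _ (ha u hu)

/-- The (empty) list of endomorphisms. -/
abbrev P0 (A : AbVar g) : Fin 0 → Module.End ℚ A.H1 := fun i => i.elim0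

variable {P : Fin 0 → Module.End ℚ A.H1}

theorem stH (hF : A.Full 𝔥) (χ : ZZ A P → ℂ) : Stable (LH hF).toSubmodule (EE A P χ) := by
  intro X hX u hu
  rw [mem_EE] at hu ⊢
  intro R
  have h1 : (R : Module.End ℚ A.H1).baseChange ℂ * X = X * (R : Module.End ℚ A.H1).baseChange ℂ := by
    refine cx_comm (S := 𝔥) (fun Y hY => ?_) X hX
    rw [← bc_mul, ← bc_mul]
    congr 1
    exact (H_comm hF hY R.2.1).symm
  have h2 := LinearMap.congr_fun h1 u
  rw [Module.End.mul_apply, Module.End.mul_apply, hu R, map_smul] at h2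
  exact h2

theorem irrH (hF : A.Full 𝔥) (H : Sys A P) {χ : ZZ A P → ℂ} (hne : EE A P χ ≠ ⊥) :
    Irr (LH hF).toSubmodule (EE A P χ) := by
  refine ⟨hne, stH hF χ, fun U hU hst => ?_⟩
  by_cases h0 : U = ⊥
  · exact Or.inl h0
  right
  refine le_antisymm hU fun w hw => ?_
  obtain ⟨u, hu, hu0⟩ := Submodule.exists_mem_ne_zero_of_ne_bot h0
  obtain ⟨u', hu', h1⟩ : ∃ u' ∈ EE A P χ, omC A u' u ≠ 0 := by
    by_contra hcon
    push Not at hcon
    refine hu0 (H.EE_nd χ u (hU hu) fun y hy => ?_)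
    rw [omC_anti, hcon y hy, neg_zero]
  let T : Module.End ℂ (ℂ ⊗[ℚ] A.H1) := (omC A u').smulRight w
  have hT : ∀ x, T x = omC A u' x • w := fun _ => rfl
  have h2 : T u ∈ U := by
    refine cx_memH hF (T := T) (fun Q hQ => ?_) U hst u hu
    have hQ' : Q ∈ ZZ A P := ⟨hQ, fun i => i.elim0⟩
    refine LinearMap.ext fun x => ?_
    rw [Module.End.mul_apply, Module.End.mul_apply, hT, hT, map_smul,
      mem_EE.1 hw ⟨Q, hQ'⟩, ← omC_sym A (H.symZ hQ'), mem_EE.1 hu' ⟨Q, hQ'⟩, map_smul,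
      LinearMap.smul_apply, smul_eq_mul, mul_smul]
    exact smul_comm _ _ _
  rw [hT] at h2
  have h3 := U.smul_mem (omC A u' u)⁻¹ h2
  rwa [smul_smul, inv_mul_cancel₀ h1, one_smul] at h3

theorem multH (hF : A.Full 𝔥) (H : Sys A P) (U : Submodule ℂ (ℂ ⊗[ℚ] A.H1))
    (hU : Stable (LH hF).toSubmodule U) (i k : JJ A P) (hik : i ≠ k) (w : ℂ ⊗[ℚ] A.H1)
    (hw : w ∈ EE A P i.1) (w' : ℂ ⊗[ℚ] A.H1) (hw' : w' ∈ EE A P k.1) (hww : w + w' ∈ U) :
    w ∈ U := by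
  obtain ⟨R, hR⟩ : ∃ R, i.1 R ≠ k.1 R := Function.ne_iff.1 fun h => hik (Subtype.ext h)
  let T : Module.End ℂ (ℂ ⊗[ℚ] A.H1) :=
    (i.1 R - k.1 R)⁻¹ • ((R : Module.End ℚ A.H1).baseChange ℂ - k.1 R • (1 : Module.End ℂ _))
  have hT : ∀ x, T x = (i.1 R - k.1 R)⁻¹ • ((R : Module.End ℚ A.H1).baseChange ℂ x - k.1 R • x) :=
    fun _ => rfl
  have h1 : T (w + w') ∈ U := by
    refine cx_memH hF (T := T) (fun Q hQ => ?_) U hU _ hww
    have h2 : (R : Module.End ℚ A.H1).baseChange ℂ * Q.baseChange ℂ =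
        Q.baseChange ℂ * (R : Module.End ℚ A.H1).baseChange ℂ := by
      rw [← bc_mul, ← bc_mul, H.commZ R.2 ⟨hQ, fun i => i.elim0⟩]
    refine LinearMap.ext fun x => ?_
    have h3 := LinearMap.congr_fun h2 x
    rw [Module.End.mul_apply, Module.End.mul_apply] at h3
    rw [Module.End.mul_apply, Module.End.mul_apply, hT, hT, h3, map_smul, map_sub, map_smul]
  have h2 : T (w + w') = w := by
    rw [hT, map_add, mem_EE.1 hw R, mem_EE.1 hw' R, smul_add, add_sub_add_comm, sub_self, add_zero,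
      ← sub_smul, smul_smul, inv_mul_cancel₀ (sub_ne_zero.2 hR), one_smul]
  rwa [h2] at h1

/-- The family of the blocks. -/
theorem famH (hF : A.Full 𝔥) (H : Sys A P) (hb : ∀ j : JJ A P, finrank ℂ (EE A P j.1) ≤ 4) :
    ∃ (_ : LieAlgebra.IsKilling ℂ (LH hF)) (p : Prin (LH hF)) (v : JJ A P → ℂ ⊗[ℚ] A.H1)
      (d : JJ A P → ℕ), Fam p (omC A) (fun j : JJ A P => EE A P j.1) v d := by
  have hsk : ∀ X ∈ LH hF, Skew (omC A) X := fun X hX => skewH hF hX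
  have hW : ∀ j : JJ A P, Irr (LH hF).toSubmodule (EE A P j.1) := fun j => irrH hF H j.2
  have hN : ∀ j : JJ A P, Nd (omC A) (EE A P j.1) := fun j => H.EE_nd j.1
  have hK : LieAlgebra.IsKilling ℂ (LH hF) := isKilling hW hN H.iSup_JJ hsk
  obtain ⟨p⟩ : Nonempty (Prin (LH hF)) := exists_prin (LH hF)
  choose v d hB hd using fun j : JJ A P => exists_sb p (omC_alt A) hsk (hW j) (hN j) (hb j)
  exact ⟨hK, p, v, d, omC_alt A, hsk, hB, hd, hW, hN, H.orth_JJ, H.iSup_JJ,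
    fun U hU i k hik w hw w' hw' hww => multH hF H U hU i k hik w hw w' hw' hww⟩

theorem memH_BQ (hF : A.Full 𝔥) {β : ℂ ⊗[ℚ] A.H1 →ₗ[ℂ] ℂ ⊗[ℚ] A.H1 →ₗ[ℂ] ℂ}
    (hβ : β ∈ IB (LH hF).toSubmodule) :
    (fun u v => β ((1 : ℂ) ⊗ₜ[ℚ] u) ((1 : ℂ) ⊗ₜ[ℚ] v)) ∈ BQ A := by
  obtain ⟨T, hT⟩ := exists_end A β
  have h1 : T ∈ extEnd ℂ (fun Q => Q ∈ A.EA) := by
    refine end_mem_span _ T fun lam => commH hF fun X hX => ?_
    refine (comm_cmp ?_ lam).symm
    refine LinearMap.ext fun x => ?_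
    rw [← sub_eq_zero]
    apply omC_nondeg
    intro y
    have hXs := skewH hF (bc_mem hX) (T x) y
    have hb := hβ _ (bc_mem hX) x y
    rw [← hT, ← hT] at hb
    rw [Module.End.mul_apply, Module.End.mul_apply, map_sub, LinearMap.sub_apply]
    linear_combination hb - hXs
  have h2 : (fun u v => β ((1 : ℂ) ⊗ₜ[ℚ] u) ((1 : ℂ) ⊗ₜ[ℚ] v)) =
      fun u v => omC A (T ((1 : ℂ) ⊗ₜ[ℚ] u)) ((1 : ℂ) ⊗ₜ[ℚ] v) := by
    funext u v
    rw [hT]
  rw [h2]
  clear hT h2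
  unfold extEnd at h1
  induction h1 using Submodule.span_induction with
  | mem T hT =>
    obtain ⟨Q, hQ, rfl⟩ := hT
    refine Submodule.subset_span ⟨Q, hQ, ?_⟩
    funext u v
    rw [LinearMap.baseChange_tmul, omC_one]
  | zero =>
    simp only [LinearMap.zero_apply, map_zero]
    exact Submodule.zero_mem _
  | add a b _ _ ha hb =>
    have h3 : (fun u v => omC A ((a + b) ((1 : ℂ) ⊗ₜ[ℚ] u)) ((1 : ℂ) ⊗ₜ[ℚ] v)) =
        (fun u v => omC A (a ((1 : ℂ) ⊗ₜ[ℚ] u)) ((1 : ℂ) ⊗ₜ[ℚ] v)) +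
        fun u v => omC A (b ((1 : ℂ) ⊗ₜ[ℚ] u)) ((1 : ℂ) ⊗ₜ[ℚ] v) := by
      funext u v
      rw [Pi.add_apply, Pi.add_apply, LinearMap.add_apply, map_add, LinearMap.add_apply]
    rw [h3]
    exact Submodule.add_mem _ ha hb
  | smul c a _ ha =>
    have h3 : (fun u v => omC A ((c • a) ((1 : ℂ) ⊗ₜ[ℚ] u)) ((1 : ℂ) ⊗ₜ[ℚ] v)) =
        c • fun u v => omC A (a ((1 : ℂ) ⊗ₜ[ℚ] u)) ((1 : ℂ) ⊗ₜ[ℚ] v) := by
      funext u v
      rw [Pi.smul_apply, Pi.smul_apply, LinearMap.smul_apply, map_smul, LinearMap.smul_apply]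
    rw [h3]
    exact Submodule.smul_mem _ _ ha

/-- **Alternating forms killed by the Lie algebra.** -/
theorem lefH (hF : A.Full 𝔥) (H : Sys A P) (hb : ∀ j : JJ A P, finrank ℂ (EE A P j.1) ≤ 4) {m : ℕ}
    (φ : A.H1 [⋀^Fin m × Fin 2]→ₗ[ℚ] ℚ) (hφ : ∀ X ∈ 𝔥, Kills X φ.toMultilinearMap) :
    φ.toMultilinearMap ∈ Submodule.span ℚ (AbVar.LefProd A A.EA m) := by
  classical
  obtain ⟨hK, p, v, d, F⟩ := famH hF H hb
  obtain ⟨inst, _⟩ := H.card_JJ
  let b : Basis (Fin (2 * g)) ℚ A.H1 := Pi.basisFun ℚ (Fin (2 * g))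
  let Φ := bcm (Ω := ℂ) b φ.toMultilinearMap
  have hinv : ∀ X ∈ LH hF, Kills X Φ := by
    intro X hX
    refine (kills_bcm_iff b φ.toMultilinearMap X).2 fun lam => ?_
    exact hφ _ (cmp_of_ext 𝔥 hX lam)
  have h1 := F.prods Φ (fun x i j hij hne => bcm_alt b φ x i j hij hne) hinv
  refine descendG ?_
  let res : MultilinearMap ℂ (fun _ : Fin m × Fin 2 => ℂ ⊗[ℚ] A.H1) ℂ →ₗ[ℂ]
      ((Fin m × Fin 2 → A.H1) → ℂ) :=
    { toFun := fun ψ v => ψ fun l => (1 : ℂ) ⊗ₜ[ℚ] v l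
      map_add' := fun _ _ => rfl
      map_smul' := fun _ _ => rfl }
  have h2 : (fun v => algebraMap ℚ ℂ (φ.toMultilinearMap v)) = res Φ := by
    funext v
    exact (bcm_one (Ω := ℂ) b φ.toMultilinearMap v).symm
  rw [h2]
  have h3 := Submodule.mem_map_of_mem (f := res) h1
  rw [Submodule.map_span] at h3
  refine (Submodule.span_le.2 ?_) h3
  rintro _ ⟨_, ⟨e, B, hB, rfl⟩, rfl⟩
  exact prod_memG e (f := fun s u v => B s ((1 : ℂ) ⊗ₜ[ℚ] u) ((1 : ℂ) ⊗ₜ[ℚ] v))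
    fun s => memH_BQ hF (hB s)

end Pool.Agent.L0h12.FT
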