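import Pool.Agent.L0h12.FT.SlD

set_option autoImplicit false
set_option linter.unusedSectionVars false
set_option linter.unusedVariables false

/-!
# Dimensions of representations of Lie algebras with many ideals
-/

open Module Function LieModule

noncomputable section

namespace Pool.Agent.L0h12.FT

attribute [local instance 100] LieRing.ofAssociativeRing

/-- The quotients by the ideals `K s`, `s ∈ S`, are prime, contain `sl(2)`, and they are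
independent. -/
structure DatI {L : Type*} [LieRing L] [LieAlgebra ℂ L] {σ : Type*} (S : Finset σ)
    (K : σ → LieIdeal ℂ L) : Prop where
  tri : ∀ s ∈ S, ∃ h e f : L, h ∉ K s ∧ ⁅h, e⁆ - (2 : ℂ) • e ∈ K s ∧ ⁅h, f⁆ + (2 : ℂ) • f ∈ K s ∧
    ⁅e, f⁆ - h ∈ K s ∧ ∀ t ∈ S, t ≠ s → h ∈ K t ∧ e ∈ K t ∧ f ∈ K t
  prime : ∀ s ∈ S, ∀ I J : LieIdeal ℂ L, (∃ x ∈ I, x ∉ K s) → (∃ y ∈ J, y ∉ K s) →
    ∃ x ∈ I, ∃ y ∈ J, ⁅x, y⁆ ∉ K s

variable {L : Type*} [LieRing L] [LieAlgebra ℂ L] [FiniteDimensional ℂ L]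
  {σ : Type*} [DecidableEq σ] {K : σ → LieIdeal ℂ L}

theorem DatI.mono {S S' : Finset σ} (D : DatI S K) (h : S' ⊆ S) : DatI S' K where
  tri s hs := by
    obtain ⟨x, e, f, h1, h2, h3, h4, h5⟩ := D.tri s (h hs)
    exact ⟨x, e, f, h1, h2, h3, h4, fun t ht => h5 t (h ht)⟩
  prime s hs := D.prime s (h hs)

section Irr

variable {M : Type*} [AddCommGroup M] [Module ℂ M] [LieRingModule L M] [LieModule ℂ L M]
  [FiniteDimensional ℂ M] {S : Finset σ}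

/-- The intersection of the ideals. -/
def kI (S : Finset σ) (K : σ → LieIdeal ℂ L) : Submodule ℂ L where
  carrier := {x | ∀ s ∈ S, x ∈ K s}
  zero_mem' := fun s _ => (K s).zero_mem
  add_mem' := fun {a b} ha hb s hs => (K s).add_mem (ha s hs) (hb s hs)
  smul_mem' := fun c a ha s hs => (K s).smul_mem c (ha s hs)

/-- The orthogonal complement of the intersection. -/
theorem exists_complI [IsIrreducible ℂ L M] [IsFaithful ℂ L M] (S : Finset σ)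
    (K : σ → LieIdeal ℂ L) : ∃ A : Submodule ℂ L, (∀ z : L, ∀ x ∈ A, ⁅z, x⁆ ∈ A) ∧
      (∀ x ∈ A, (∀ s ∈ S, x ∈ K s) → x = 0) ∧ ∀ x, ∃ y ∈ A, ∀ s ∈ S, y - x ∈ K s := by
  have hP : ∀ z : L, ∀ x ∈ kI S K, ⁅z, x⁆ ∈ kI S K := fun z x hx s hs => (K s).lie_mem (hx s hs)
  let B : LinearMap.BilinForm ℂ L := traceForm ℂ L M
  have hB : ∀ x y, B x y = LinearMap.trace ℂ M (toEnd ℂ L M x * toEnd ℂ L M y) := fun x y => rfl
  have hrefl : B.IsRefl := by
    intro x y h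
    rw [hB] at h ⊢
    rw [LinearMap.trace_mul_comm]
    exact h
  have hAP : ∀ z : L, ∀ x ∈ B.orthogonal (kI S K), ⁅z, x⁆ ∈ B.orthogonal (kI S K) := by
    intro z x hx p hp
    have e1 : B ⁅z, p⁆ x = -B p ⁅z, x⁆ := traceForm_apply_lie_apply' ℂ L M z p x
    have e2 : B ⁅z, p⁆ x = 0 := hx _ (hP z p hp)
    change B p ⁅z, x⁆ = 0
    rw [e2] at e1
    exact neg_eq_zero.1 e1.symm
  let I : LieIdeal ℂ L :=
    { kI S K ⊓ B.orthogonal (kI S K) with
      lie_mem := by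
        intro z x hx
        exact ⟨hP z x hx.1, hAP z x hx.2⟩ }
  have hI : I = ⊥ := by
    refine Pool.Agent.N192.GP.ideal_bot (M := M) I fun x hx y hy => ?_
    have h1 : B x y = 0 := hy.2 x hx.1
    rwa [hB] at h1
  have hI' : ∀ x ∈ kI S K, x ∈ B.orthogonal (kI S K) → x = 0 := by
    intro x h1 h2
    have h3 : x ∈ I := ⟨h1, h2⟩
    rw [hI] at h3
    exact (LieSubmodule.mem_bot x).1 h3
  have hnd : (B.restrict (kI S K)).Nondegenerate := by
    have key : ∀ x : kI S K, (∀ y : kI S K, B.restrict (kI S K) x y = 0) → x = 0 := by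
      intro x hx
      refine Subtype.ext (hI' x x.2 fun p hp => ?_)
      exact hrefl _ _ (hx ⟨p, hp⟩)
    refine ⟨key, fun x hx => key x fun y => ?_⟩
    exact hrefl _ _ (hx y)
  have hc := B.isCompl_orthogonal_of_restrict_nondegenerate hrefl hnd
  refine ⟨B.orthogonal (kI S K), hAP, fun x hx h0 => hI' x h0 hx, fun x => ?_⟩
  have h1 : x ∈ kI S K ⊔ B.orthogonal (kI S K) := by
    rw [hc.sup_eq_top]
    trivial
  obtain ⟨p, hp, y, hy, rfl⟩ := Submodule.mem_sup.1 h1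
  refine ⟨y, hy, fun s hs => ?_⟩
  rw [sub_add_cancel_right]
  exact (K s).neg_mem (hp s hs)

/-- The irreducible case. -/
theorem irrI [IsIrreducible ℂ L M] [IsFaithful ℂ L M] (D : DatI S K) :
    2 * S.card ≤ finrank ℂ M := by
  classical
  obtain ⟨A, hA1, hA2, hA3⟩ := exists_complI (M := M) S K
  choose φ hφ1 hφ2 using hA3
  have key : ∀ s : S, ∃ h e f : L, h ∉ K s ∧ ⁅h, e⁆ - (2 : ℂ) • e ∈ K s ∧
      ⁅h, f⁆ + (2 : ℂ) • f ∈ K s ∧ ⁅e, f⁆ - h ∈ K s ∧ ∀ t ∈ S, t ≠ s → h ∈ K t ∧ e ∈ K t ∧ f ∈ K t :=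
    fun s => D.tri s.1 s.2
  choose h e f h0 h1 h2 h3 h4 using key
  -- congruences
  have cg : ∀ s ∈ S, ∀ x y : L, ⁅φ x, φ y⁆ - ⁅x, y⁆ ∈ K s := by
    intro s hs x y
    have e1 : ⁅φ x, φ y⁆ - ⁅x, y⁆ = ⁅φ x, φ y - y⁆ - ⁅y, φ x - x⁆ := by
      rw [lie_sub, lie_sub, ← lie_skew (φ x) y, ← lie_skew x y]
      abel
    rw [e1]
    exact (K s).sub_mem ((K s).lie_mem (hφ2 y s hs)) ((K s).lie_mem (hφ2 x s hs))
  have hm : ∀ s ∈ S, ∀ x : L, x ∈ K s → φ x ∈ K s := by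
    intro s hs x hx
    have := (K s).add_mem (hφ2 x s hs) hx
    rwa [sub_add_cancel] at this
  have hout : ∀ s ∈ S, ∀ x : L, φ x ∈ K s → x ∈ K s := by
    intro s hs x hx
    have := (K s).sub_mem hx (hφ2 x s hs)
    rwa [sub_sub_cancel] at this
  have hlieA : ∀ x y : L, ⁅φ x, φ y⁆ ∈ A := fun x y => hA1 _ _ (hφ1 y)
  have hl : ∀ x y : L, toEnd ℂ L M x * toEnd ℂ L M y - toEnd ℂ L M y * toEnd ℂ L M x =
      toEnd ℂ L M ⁅x, y⁆ := by
    intro x y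
    refine LinearMap.ext fun m => ?_
    change ⁅x, ⁅y, m⁆⁆ - ⁅y, ⁅x, m⁆⁆ = ⁅⁅x, y⁆, m⁆
    exact (lie_lie x y m).symm
  -- commutators
  have hcomm : ∀ s t : S, s ≠ t → ∀ x y : L, (∀ u ∈ S, u ≠ s.1 → x ∈ K u) →
      (∀ u ∈ S, u ≠ t.1 → y ∈ K u) →
      toEnd ℂ L M (φ x) * toEnd ℂ L M (φ y) = toEnd ℂ L M (φ y) * toEnd ℂ L M (φ x) := by
    intro s t hst x y hx hy
    rw [← sub_eq_zero, hl]
    have : ⁅φ x, φ y⁆ = 0 := by
      refine hA2 _ (hlieA x y) fun u hu => ?_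
      by_cases hus : u = s.1
      · have hut : u ≠ t.1 := fun h => hst (Subtype.ext (hus.symm.trans h))
        exact (K u).lie_mem (hm u hu _ (hy u hu hut))
      · rw [← lie_skew]
        exact (K u).neg_mem ((K u).lie_mem (hm u hu _ (hx u hu hus)))
    rw [this, map_zero]
  -- relations
  have rel : ∀ s : S, ∀ z : L, z ∈ A → z ∈ K s → (∀ u ∈ S, u ≠ s.1 → z ∈ K u) → z = 0 := by
    intro s z hzA hz1 hz2
    refine hA2 z hzA fun u hu => ?_
    by_cases hus : u = s.1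
    · rw [hus]; exact hz1
    · exact hz2 u hu hus
  have r1 : ∀ s : S, ⁅φ (h s), φ (e s)⁆ = (2 : ℂ) • φ (e s) := by
    intro s
    rw [← sub_eq_zero]
    refine rel s _ (A.sub_mem (hlieA _ _) (A.smul_mem _ (hφ1 _))) ?_ fun u hu hus => ?_
    · have e1 : ⁅φ (h s), φ (e s)⁆ - (2 : ℂ) • φ (e s) = (⁅φ (h s), φ (e s)⁆ - ⁅h s, e s⁆) +
          (⁅h s, e s⁆ - (2 : ℂ) • e s) - (2 : ℂ) • (φ (e s) - e s) := by
        rw [smul_sub]
        abel
      rw [e1]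
      exact (K s).sub_mem ((K s).add_mem (cg s s.2 _ _) (h1 s))
        ((K s).smul_mem _ (hφ2 _ s s.2))
    · have e2 := (h4 s u hu hus).2.1
      exact (K u).sub_mem ((K u).lie_mem (hm u hu _ e2)) ((K u).smul_mem _ (hm u hu _ e2))
  have r2 : ∀ s : S, ⁅φ (h s), φ (f s)⁆ = -((2 : ℂ) • φ (f s)) := by
    intro s
    rw [← sub_eq_zero, sub_neg_eq_add]
    refine rel s _ (A.add_mem (hlieA _ _) (A.smul_mem _ (hφ1 _))) ?_ fun u hu hus => ?_
    · have e1 : ⁅φ (h s), φ (f s)⁆ + (2 : ℂ) • φ (f s) = (⁅φ (h s), φ (f s)⁆ - ⁅h s, f s⁆) +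
          (⁅h s, f s⁆ + (2 : ℂ) • f s) + (2 : ℂ) • (φ (f s) - f s) := by
        rw [smul_sub]
        abel
      rw [e1]
      exact (K s).add_mem ((K s).add_mem (cg s s.2 _ _) (h2 s))
        ((K s).smul_mem _ (hφ2 _ s s.2))
    · have e2 := (h4 s u hu hus).2.2
      exact (K u).add_mem ((K u).lie_mem (hm u hu _ e2)) ((K u).smul_mem _ (hm u hu _ e2))
  have r3 : ∀ s : S, ⁅φ (e s), φ (f s)⁆ = φ (h s) := by
    intro s
    rw [← sub_eq_zero]
    refine rel s _ (A.sub_mem (hlieA _ _) (hφ1 _)) ?_ fun u hu hus => ?_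
    · have e1 : ⁅φ (e s), φ (f s)⁆ - φ (h s) = (⁅φ (e s), φ (f s)⁆ - ⁅e s, f s⁆) +
          (⁅e s, f s⁆ - h s) - (φ (h s) - h s) := by
        abel
      rw [e1]
      exact (K s).sub_mem ((K s).add_mem (cg s s.2 _ _) (h3 s)) (hφ2 _ s s.2)
    · exact (K u).sub_mem ((K u).lie_mem (hm u hu _ (h4 s u hu hus).2.2))
        (hm u hu _ (h4 s u hu hus).1)
  have htri : ∀ s : S, IsSl2Triple (toEnd ℂ L M (φ (h s))) (toEnd ℂ L M (φ (e s)))
      (toEnd ℂ L M (φ (f s))) := by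
    intro s
    refine ⟨fun h5 => ?_, ?_, ?_, ?_⟩
    · have h6 : φ (h s) = 0 := (isFaithful_iff' ℂ L M).1 ‹IsFaithful ℂ L M› _ fun m =>
        LinearMap.congr_fun h5 m
      exact h0 s (hout s s.2 _ (by rw [h6]; exact (K s).zero_mem))
    · change toEnd ℂ L M (φ (e s)) * toEnd ℂ L M (φ (f s)) -
        toEnd ℂ L M (φ (f s)) * toEnd ℂ L M (φ (e s)) = _
      rw [hl, r3]
    · change toEnd ℂ L M (φ (h s)) * toEnd ℂ L M (φ (e s)) -
        toEnd ℂ L M (φ (e s)) * toEnd ℂ L M (φ (h s)) = _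
      rw [hl, r1, map_smul, two_smul, two_nsmul]
    · change toEnd ℂ L M (φ (h s)) * toEnd ℂ L M (φ (f s)) -
        toEnd ℂ L M (φ (f s)) * toEnd ℂ L M (φ (h s)) = _
      rw [hl, r2, map_neg, map_smul, two_smul, two_nsmul]
  have h5 := sl2_dim (M := M) (ι := S) htri (fun s t => ?_) (fun s t hst => ?_) fun s t hst => ?_
  · rwa [Fintype.card_coe] at h5
  · by_cases hst : s = t
    · rw [hst]
    · exact hcomm s t hst _ _ (fun u hu hus => (h4 s u hu hus).1) fun u hu hut => (h4 t u hu hut).1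
  · exact hcomm s t hst _ _ (fun u hu hus => (h4 s u hu hus).1) fun u hu hut => (h4 t u hu hut).2.1
  · exact hcomm s t hst _ _ (fun u hu hus => (h4 s u hu hus).1) fun u hu hut => (h4 t u hu hut).2.2

end Irr

end Pool.Agent.L0h12.FT
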