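import Pool.Agent.L0h12.FT.Spl
import Pool.Agent.L0h12.FF.Wedge

set_option autoImplicit false
set_option linter.unusedSectionVars false
set_option linter.unusedVariables false

/-!
# The theorem on mixed de Rham-Betti classes
-/

open Module Function TensorProduct

noncomputable section

namespace Pool.Agent.L0h12.FT

open Pool.Agent.Y102 Pool.Agent.W516.DR Pool.Agent.H204R3.GP Pool.Agent.W516.KC
  Pool.Agent.H204R3.SP Pool.Agent.N192.GP Pool.Agent.L0h12.FF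

variable {g d : ℕ} {A : AbVar g} {V : DRS d} {κ κ' : Type} [Fintype κ] [DecidableEq κ]
  [Fintype κ'] [DecidableEq κ'] {w : ℤ}

/-- Alternating forms which are annihilated by a Lie algebra. -/
def AK (A : AbVar g) (κ : Type) [Fintype κ] [DecidableEq κ]
    (𝔥 : Submodule ℚ (Module.End ℚ A.H1)) :
    Submodule ℚ (MultilinearMap ℚ (fun _ : κ => A.H1) ℚ) where
  carrier := {ψ | (∀ u i j, u i = u j → i ≠ j → ψ u = 0) ∧ ∀ X ∈ 𝔥, Kills X ψ}
  zero_mem' := ⟨fun _ _ _ _ _ => rfl, fun X _ v => Finset.sum_eq_zero fun _ _ => rfl⟩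
  add_mem' := by
    rintro a b ⟨h1, h2⟩ ⟨h3, h4⟩
    refine ⟨fun u i j hij hne => ?_, fun X hX v => ?_⟩
    · rw [add_apply, h1 u i j hij hne, h3 u i j hij hne, add_zero]
    · have e1 := h2 X hX v
      have e2 := h4 X hX v
      simp only [add_apply, Finset.sum_add_distrib]
      rw [e1, e2, add_zero]
  smul_mem' := by
    rintro c a ⟨h1, h2⟩
    refine ⟨fun u i j hij hne => ?_, fun X hX v => ?_⟩
    · rw [smul_apply, h1 u i j hij hne, smul_zero]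
    · have e1 := h2 X hX v
      simp only [smul_apply, smul_eq_mul, ← Finset.mul_sum]
      rw [e1, mul_zero]

/-- The alternating map. -/
def toAlt {𝔥 : Submodule ℚ (Module.End ℚ A.H1)} (ψ : AK A κ 𝔥) : A.H1 [⋀^κ]→ₗ[ℚ] ℚ :=
  { ψ.1 with map_eq_zero_of_eq' := fun u i j hij hne => ψ.2.1 u i j hij hne }

theorem toAlt_apply {𝔥 : Submodule ℚ (Module.End ℚ A.H1)} (ψ : AK A κ 𝔥) (u : κ → A.H1) :
    toAlt ψ u = ψ.1 u := rfl

/-- The alternating forms annihilated by the Lie algebra are sums of products of divisor classes. -/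
theorem ak_lef {𝔥 : Submodule ℚ (Module.End ℚ A.H1)} (hF : A.Full 𝔥)
    (hs : ∀ Q ∈ A.EA, ∀ u v, A.om (Q u) v = A.om u (Q v))
    (x : Fin 4 → A.H1) (hx : Submodule.span ℚ {y | ∃ Q ∈ A.EA, ∃ k, y = Q (x k)} = ⊤)
    (ψ : AK A κ 𝔥) {m : ℕ} (E : Fin m × Fin 2 ≃ κ) :
    toAlt ψ ∈ Submodule.span ℚ {ψ' : A.H1 [⋀^κ]→ₗ[ℚ] ℚ | ∃ b : Fin m → A.H1 →ₗ[ℚ] A.H1 →ₗ[ℚ] ℚ,
      (∀ l, IsHodgeBilinear (A.per : A.H1 →+ (Fin g → ℂ)) (b l) ∧ ∀ u, b l u u = 0) ∧
        ∀ v, ψ' v = ∑ σ : Equiv.Perm κ, ((Equiv.Perm.sign σ : ℤ) : ℚ) *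
          ∏ l, b l (v (σ (E (l, 0)))) (v (σ (E (l, 1))))} := by
  classical
  let ψ1 : A.H1 [⋀^Fin m × Fin 2]→ₗ[ℚ] ℚ := (toAlt ψ).domDomCongr E.symm
  have h0 : ∀ u, ψ1 u = ψ.1 fun k => u (E.symm k) := fun u => rfl
  have hk : ∀ X ∈ 𝔥, Kills X ψ1.toMultilinearMap := by
    intro X hX u
    have h1 := ψ.2.2 X hX fun k => u (E.symm k)
    rw [← h1]
    refine Fintype.sum_equiv E _ _ fun l => ?_
    change ψ1 _ = _
    rw [h0]
    congr 1
    funext k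
    by_cases hkl : k = E l
    · subst hkl
      rw [update_self, Equiv.symm_apply_apply, update_self]
    · rw [update_of_ne hkl, update_of_ne]
      intro h2
      exact hkl (by rw [← h2, Equiv.apply_symm_apply])
  have h2 := alt_span (per := (A.per : A.H1 →+ (Fin g → ℂ))) ψ1
    (A.lef_sub (lefH hF (sys0 hs) (fun j => finrank_EE_le (sys0 hs) x hx j) ψ1 hk))
  have h3 : toAlt ψ = AlternatingMap.domDomCongrₗ ℚ E ψ1 := by
    refine AlternatingMap.ext fun u => ?_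
    change ψ.1 u = ψ1 fun k => u (E k)
    rw [h0]
    congr 1
    funext k
    rw [Equiv.apply_symm_apply]
  rw [h3]
  have h4 := Submodule.mem_map_of_mem (f := (AlternatingMap.domDomCongrₗ ℚ E :
    (A.H1 [⋀^Fin m × Fin 2]→ₗ[ℚ] ℚ) ≃ₗ[ℚ] (A.H1 [⋀^κ]→ₗ[ℚ] ℚ)).toLinearMap) h2
  rw [Submodule.map_span] at h4
  refine Submodule.span_mono ?_ h4
  rintro _ ⟨ψ', ⟨b, hb, hv⟩, rfl⟩
  refine ⟨b, hb, fun v => ?_⟩
  change ψ' (fun k => v (E k)) = _
  rw [hv]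
  unfold wedge
  refine Fintype.sum_equiv E.permCongr _ _ fun σ => ?_
  rw [Equiv.Perm.sign_permCongr]
  congr 1
  refine Finset.prod_congr rfl fun l _ => ?_
  rw [Equiv.permCongr_apply, Equiv.permCongr_apply, Equiv.symm_apply_apply, Equiv.symm_apply_apply]

/-- The form with the second variables fixed. -/
def fix (φ : MultilinearMap ℚ (fun _ : κ => A.H1) (MultilinearMap ℚ (fun _ : κ' => Fin d → ℚ) ℚ))
    (v : κ' → Fin d → ℚ) : MultilinearMap ℚ (fun _ : κ => A.H1) ℚ :=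
  ({ toFun := fun χ => χ v
     map_add' := fun _ _ => rfl
     map_smul' := fun _ _ => rfl } : MultilinearMap ℚ (fun _ : κ' => Fin d → ℚ) ℚ →ₗ[ℚ] ℚ)
    |>.compMultilinearMap φ

theorem fix_apply (φ : MultilinearMap ℚ (fun _ : κ => A.H1)
    (MultilinearMap ℚ (fun _ : κ' => Fin d → ℚ) ℚ)) (v : κ' → Fin d → ℚ) (u : κ → A.H1) :
    fix φ v u = φ u v := rfl

/-- **The splitting theorem.** -/
theorem split_main (A : AbVar g) (V : DRS d)
    (hs : ∀ Q ∈ A.EA, ∀ u v, A.om (Q u) v = A.om u (Q v))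
    (x : Fin 4 → A.H1) (hx : Submodule.span ℚ {y | ∃ Q ∈ A.EA, ∃ k, y = Q (x k)} = ⊤) :
    ∃ e ∈ A.EA, e * e = e ∧
      ((∀ X Y : Module.End ℚ (Fin d → ℚ),
        (∀ P, IsDeRhamBettiEnd QBar V.eta P → X * P = P * X) →
        (∀ P, IsDeRhamBettiEnd QBar V.eta P → Y * P = P * Y) → X * Y = Y * X) → e = 1) ∧
      (∀ (k : ℕ) (f : Fin k → Module.End ℚ A.H1), (∀ i, f i ∈ A.EA) → (∀ i, f i ≠ 0) →
        (∀ i, f i * f i = f i) → (∀ i j, i ≠ j → f i * f j = 0) → (∀ i, f i * e = 0) →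
        3 * k ≤ 2 * d ^ 2) ∧
      ∀ (κ κ' : Type) [Fintype κ] [DecidableEq κ] [Fintype κ'] [DecidableEq κ'] (w : ℤ)
        (φ : MultilinearMap ℚ (fun _ : κ => A.H1)
          (MultilinearMap ℚ (fun _ : κ' => Fin d → ℚ) ℚ)), Mix A V w φ →
        (∀ u i j, u i = u j → i ≠ j → φ u = 0) →
        (∀ u v, φ (fun l => e (u l)) v = φ u v) →
        (Odd (Fintype.card κ) → φ = 0) ∧ ∀ (m : ℕ) (E : Fin m × Fin 2 ≃ κ),
        ∃ (K : ℕ) (ψ : Fin K → A.H1 [⋀^κ]→ₗ[ℚ] ℚ)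
          (χ : Fin K → MultilinearMap ℚ (fun _ : κ' => Fin d → ℚ) ℚ),
          (∀ k, ψ k ∈ Submodule.span ℚ {ψ' : A.H1 [⋀^κ]→ₗ[ℚ] ℚ |
            ∃ b : Fin m → A.H1 →ₗ[ℚ] A.H1 →ₗ[ℚ] ℚ,
            (∀ l, IsHodgeBilinear (A.per : A.H1 →+ (Fin g → ℂ)) (b l) ∧ ∀ u, b l u u = 0) ∧
            ∀ v, ψ' v = ∑ σ : Equiv.Perm κ, ((Equiv.Perm.sign σ : ℤ) : ℚ) *
              ∏ l, b l (v (σ (E (l, 0)))) (v (σ (E (l, 1))))}) ∧
          (∀ k, IsTw V.eta (w - m) (χ k)) ∧ ∀ u v, φ u v = ∑ k, ψ k u * χ k v := by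
  classical
  obtain ⟨e, he, hee, hg, hmax⟩ := exists_max (fullA A V) (idlA A V) (brkA hs)
  have hcomm : ∀ {Q R : Module.End ℚ A.H1}, Q ∈ A.EA → R ∈ A.EA → Q * R = R * Q :=
    fun hQ hR => (sys0 hs).commZ ⟨hQ, fun i => i.elim0⟩ ⟨hR, fun i => i.elim0⟩
  refine ⟨e, he, hee, fun hcm => ?_, fun k f hf hf0 hff hort hfe => ?_,
    fun κ κ' _ _ _ _ w φ hφ halt hinv => ⟨fun hodd => ?_, fun m E => ?_⟩⟩
  · by_contra hne
    have h1 : (1 - e : Module.End ℚ A.H1) ∈ A.EA := A.EA.sub_mem A.EA_one he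
    refine hmax (1 - e) h1 ?_ (sub_ne_zero.2 (Ne.symm hne)) ?_ ?_ fun X hX =>
      ⟨X, full_of_cm hs hcm hX, rfl⟩
    · rw [mul_sub, mul_one, sub_mul, one_mul, hee, sub_self, sub_zero]
    · rw [sub_mul, one_mul, hee, sub_self]
    · rw [mul_sub, mul_one, hee, sub_self]
  · obtain ⟨C, hC, hfr, hC2⟩ := exists_compl (V := V) hs
    have h1 := count (fullA A V) (idlA A V) (sys0 hs)
      (fun j => finrank_EE_le (sys0 hs) x hx j) hC hC2 f hf hff hort fun i =>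
        hmax (f i) (hf i) (hff i) (hf0 i) (hfe i) (by rw [hcomm he (hf i)]; exact hfe i)
    omega
  · refine MultilinearMap.ext fun u => MultilinearMap.ext fun v => ?_
    have h1 : fix φ v ∈ AK A κ (hA A V) :=
      ⟨fun u i j hij hne => by rw [fix_apply, halt u i j hij hne]; rfl,
        fun X hX u => h_acts hφ he hg hinv hX u v⟩
    have h2 := oddH (fullA A V) (sys0 hs) (fun j => finrank_EE_le (sys0 hs) x hx j) hodd
      (toAlt ⟨fix φ v, h1⟩) fun X hX => h1.2 X hX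
    exact congrArg (fun ψ : A.H1 [⋀^κ]→ₗ[ℚ] ℚ => ψ u) h2
  · obtain ⟨K, f, y, hf⟩ := exists_pts (M := AK A κ (hA A V)) (X := κ → A.H1)
      (fun u => { toFun := fun ψ => ψ.1 u, map_add' := fun _ _ => rfl, map_smul' := fun _ _ => rfl })
      fun ψ hψ => Subtype.ext (MultilinearMap.ext fun u => hψ u)
    have hcard : (Fintype.card κ : ℤ) = 2 * (m : ℤ) := by
      rw [← Fintype.card_congr E, Fintype.card_prod, Fintype.card_fin, Fintype.card_fin]
      push_cast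
      ring
    refine ⟨K, fun k => toAlt (f k), fun k => φ (y k), fun k =>
      ak_lef (fullA A V) hs x hx (f k) E, fun k => v_acts hφ he hg hinv hcard (y k), fun u v => ?_⟩
    have h1 : fix φ v ∈ AK A κ (hA A V) :=
      ⟨fun u i j hij hne => by rw [fix_apply, halt u i j hij hne]; rfl,
        fun X hX u => h_acts hφ he hg hinv hX u v⟩
    have h2 := congrArg Subtype.val (hf ⟨fix φ v, h1⟩)
    have h3 := congrArg (fun ψ : MultilinearMap ℚ (fun _ : κ => A.H1) ℚ => ψ u) h2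
    change φ u v = _ at h3
    rw [h3, Submodule.coe_sum]
    rw [sum_apply]
    refine Finset.sum_congr rfl fun k _ => ?_
    exact mul_comm (φ (y k) v) ((f k).1 u)

end Pool.Agent.L0h12.FT
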