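import Pool.Agent.L0h12.FT.Bad

set_option autoImplicit false
set_option linter.unusedSectionVars false
set_option linter.unusedVariables false

/-!
# The idempotent of a structure
-/

open Module Function TensorProduct

noncomputable section

namespace Pool.Agent.L0h12.FT

open Pool.Agent.Y102 Pool.Agent.W516.DR Pool.Agent.H204R3.GP Pool.Agent.W516.KC
  Pool.Agent.H204R3.SP Pool.Agent.N192.GP Pool.Agent.L0h12.FF

attribute [local instance 100] LieRing.ofAssociativeRing

variable {g d : ℕ} {A : AbVar g} {V : DRS d} {P : Fin 0 → Module.End ℚ A.H1}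

theorem cmpE_add {W : Type} [AddCommGroup W] [Module ℚ W] [FiniteDimensional ℚ W]
    (a b : Module.End ℂ (ℂ ⊗[ℚ] W)) (lam : ℂ →ₗ[ℚ] ℚ) :
    cmpE lam (a + b) = cmpE lam a + cmpE lam b := by
  refine LinearMap.ext fun w => ?_
  rw [LinearMap.add_apply, cmpE_apply, cmpE_apply, cmpE_apply, LinearMap.add_apply, map_add]

theorem cmpE_smul_bc {W : Type} [AddCommGroup W] [Module ℚ W] [FiniteDimensional ℚ W]
    (c : ℂ) (X : Module.End ℚ W) (lam : ℂ →ₗ[ℚ] ℚ) :
    cmpE lam (c • (X.baseChange ℂ : Module.End ℂ (ℂ ⊗[ℚ] W))) = lam c • X := by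
  refine LinearMap.ext fun w => ?_
  rw [cmpE_apply, LinearMap.smul_apply, LinearMap.smul_apply, LinearMap.baseChange_tmul,
    TensorProduct.smul_tmul', cmp_tmul, smul_eq_mul, mul_one]

/-- Rational endomorphisms which are independent are independent over the complex numbers. -/
theorem indep_bc {W : Type} [AddCommGroup W] [Module ℚ W] [FiniteDimensional ℚ W] {k : ℕ}
    {f : Fin k → Module.End ℚ W} (hf : LinearIndependent ℚ f) (c : Fin k → ℂ)
    (h : ∑ i, c i • ((f i).baseChange ℂ : Module.End ℂ (ℂ ⊗[ℚ] W)) = 0) : ∀ i, c i = 0 := by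
  classical
  have key : ∀ lam : ℂ →ₗ[ℚ] ℚ, ∀ i, lam (c i) = 0 := by
    intro lam
    have h1 : ∀ s : Finset (Fin k), cmpE lam (∑ i ∈ s, c i •
        ((f i).baseChange ℂ : Module.End ℂ (ℂ ⊗[ℚ] W))) = ∑ i ∈ s, lam (c i) • f i := by
      intro s
      induction s using Finset.induction_on with
      | empty =>
        rw [Finset.sum_empty, Finset.sum_empty]
        refine LinearMap.ext fun w => ?_
        rw [cmpE_apply, LinearMap.zero_apply, map_zero]
        rfl
      | insert i s hi ih => rw [Finset.sum_insert hi, Finset.sum_insert hi, cmpE_add, ih,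
          cmpE_smul_bc]
    have h2 := h1 Finset.univ
    rw [h] at h2
    have h3 : cmpE lam (0 : Module.End ℂ (ℂ ⊗[ℚ] W)) = 0 := by
      refine LinearMap.ext fun w => ?_
      rw [cmpE_apply, LinearMap.zero_apply, map_zero]
      rfl
    rw [h3] at h2
    exact Fintype.linearIndependent_iff.1 hf _ h2.symm
  intro i
  by_contra hne
  obtain ⟨lam, hlam⟩ := exists_lin (F := ℚ) (v := fun _ : Unit => c i) (by
    rw [linearIndependent_unique_iff]
    exact hne) (fun _ => (1 : ℚ))
  have := key lam i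
  rw [hlam ()] at this
  exact one_ne_zero this

/-- Independent endomorphisms which vanish on all blocks outside of `B`. -/
theorem card_le_blocks (H : Sys A P) (B : Finset (FF.JJ A P)) {k : ℕ}
    (f : Fin k → Module.End ℚ A.H1) (hli : LinearIndependent ℚ f) (hf : ∀ i, f i ∈ A.EA)
    (h0 : ∀ i, ∀ j ∉ B, ∀ x ∈ EE A P j.1, (f i).baseChange ℂ x = 0) : k ≤ B.card := by
  classical
  let χ : Fin k → (B → ℂ) := fun i j => j.1.1 ⟨f i, hf i, fun l => l.elim0⟩
  have h1 : LinearIndependent ℂ χ := by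
    rw [Fintype.linearIndependent_iff]
    intro c hc
    refine indep_bc hli c ?_
    refine ext_JJ H fun j x hx => ?_
    rw [LinearMap.zero_apply, LinearMap.sum_apply]
    by_cases hj : j ∈ B
    · have h2 := congrFun hc ⟨j, hj⟩
      rw [Finset.sum_apply] at h2
      have h3 : ∀ i, (c i • ((f i).baseChange ℂ : Module.End ℂ (ℂ ⊗[ℚ] A.H1))) x =
          (c i * χ i ⟨j, hj⟩) • x := by
        intro i
        rw [LinearMap.smul_apply, mem_EE.1 hx ⟨f i, hf i, fun l => l.elim0⟩, smul_smul]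
      rw [Finset.sum_congr rfl fun i _ => h3 i, ← Finset.sum_smul]
      have h4 : ∑ i, c i * χ i ⟨j, hj⟩ = 0 := h2
      rw [h4, zero_smul]
    · refine Finset.sum_eq_zero fun i _ => ?_
      rw [LinearMap.smul_apply, h0 i j hj x hx, smul_zero]
  have h2 := h1.fintype_card_le_finrank
  rw [Fintype.card_fin, Module.finrank_fintype_fun_eq_card, Fintype.card_coe] at h2
  exact h2

/-- **The idempotent of a structure.** -/
theorem exists_split (A : AbVar g) (V : DRS d)
    (hs : ∀ Q ∈ A.EA, ∀ u v, A.om (Q u) v = A.om u (Q v))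
    (x : Fin 4 → A.H1) (hx : Submodule.span ℚ {y | ∃ Q ∈ A.EA, ∃ k, y = Q (x k)} = ⊤) :
    ∃ e ∈ A.EA, e * e = e ∧ (∀ X ∈ hA A V, X * e ∈ nA A V) ∧ (∀ N ∈ nA A V, N * e = N) ∧
      (hA A V ≤ nA A V → e = 1) ∧
      ∀ (k : ℕ) (f : Fin k → Module.End ℚ A.H1), LinearIndependent ℚ f → (∀ i, f i ∈ A.EA) →
        (∀ i, f i * e = 0) → k ≤ d := by
  classical
  let H : Sys A (P0 A) := sys0 hs
  obtain ⟨hK, p, v, dd, F⟩ := famH (fullA A V) H (fun j => finrank_EE_le H x hx j)
  obtain ⟨inst, _⟩ := H.card_JJ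
  obtain ⟨q, C, hq1, hq2⟩ := exists_cen (KI (fullA A V) (idlA A V))
  obtain ⟨e, he, hee, h1, h2, h3, h4⟩ := exists_idem H F C hq1 hq2
  refine ⟨e, he, hee, h1, h2, fun hle => ?_, fun k f hli hf hfe => ?_⟩
  · have h5 : ∀ j : FF.JJ A (P0 A), Val p q (EE A (P0 A) j.1) 1 := by
      intro j
      have h6 : ∀ x : LH (fullA A V), q x = x := fun x => hq2 x (cx_mono hle x.2)
      refine ⟨fun w hw => ?_, fun w hw => ?_, fun w hw => ?_⟩
      · rw [h6, one_smul]; rfl
      · rw [h6, one_smul]; rfl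
      · rw [h6, one_smul]; rfl
    have h6 : (e.baseChange ℂ : Module.End ℂ (ℂ ⊗[ℚ] A.H1)) = 1 :=
      ext_JJ H fun j x hx => h3 j (h5 j) x hx
    obtain ⟨lam, hlam⟩ := exists_lam
    have h7 : (e.baseChange ℂ : Module.End ℂ (ℂ ⊗[ℚ] A.H1)) =
        (1 : Module.End ℚ A.H1).baseChange ℂ := by
      rw [h6]
      exact (LinearMap.baseChange_id (R := ℚ) (A := ℂ) (M := A.H1)).symm
    have h8 := congrArg (cmpE lam) h7
    rwa [cmp_bc _ hlam, cmp_bc _ hlam] at h8
  · let B : Finset (FF.JJ A (P0 A)) :=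
      Finset.univ.filter fun j => Val p q (EE A (P0 A) j.1) 0
    have hB := bad_le F hs C hq2 B fun j hj => (Finset.mem_filter.1 hj).2
    refine (card_le_blocks H B f hli hf fun i j hj x hx => ?_).trans hB
    have h5 : Val p q (EE A (P0 A) j.1) 1 := (F.val01 C j).resolve_left fun h =>
      hj (Finset.mem_filter.2 ⟨Finset.mem_univ _, h⟩)
    have h6 : ((f i * e).baseChange ℂ : Module.End ℂ (ℂ ⊗[ℚ] A.H1)) x = 0 := by
      rw [hfe, LinearMap.baseChange_zero, LinearMap.zero_apply]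
    rwa [bc_mul, Module.End.mul_apply, h3 j h5 x hx] at h6

end Pool.Agent.L0h12.FT
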