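import Pool.Agent.L0h12.FT.Act2
import Pool.Agent.L0h12.FT.Fr
import Pool.Agent.L0h12.FT.Fin

set_option autoImplicit false
set_option linter.unusedSectionVars false
set_option linter.unusedVariables false

/-!
# The theorem on mixed de Rham-Betti classes, with values on the whole structure
-/

open Module Function TensorProduct

noncomputable section

namespace Pool.Agent.L0h12.FT

open Pool.Agent.Y102 Pool.Agent.W516.DR Pool.Agent.H204R3.GP Pool.Agent.W516.KC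
  Pool.Agent.H204R3.SP Pool.Agent.N192.GP Pool.Agent.L0h12.FF

variable {g d : ℕ} {A : AbVar g} {V : DRS d} {κ κ' : Type} [Fintype κ] [DecidableEq κ]
  [Fintype κ'] [DecidableEq κ'] {w : ℤ}

/-- The complementary part of a vector of the sum. -/
def cut (e : Module.End ℚ A.H1) (z : A.H1 × (Fin d → ℚ)) : A.H1 × (Fin d → ℚ) :=
  (z.1 - e z.1, z.2)

section

variable {φ : MultilinearMap ℚ (fun _ : κ => A.H1)
    (MultilinearMap ℚ (fun _ : κ' => A.H1 × (Fin d → ℚ)) ℚ)}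
  {e : Module.End ℚ A.H1}

theorem cut_cut (hee : e * e = e) (z : A.H1 × (Fin d → ℚ)) : cut e (cut e z) = cut e z := by
  refine Prod.ext ?_ rfl
  change z.1 - e z.1 - e (z.1 - e z.1) = z.1 - e z.1
  have h1 : e (e z.1) = e z.1 := LinearMap.congr_fun hee z.1
  rw [map_sub, h1, sub_self, sub_zero]

theorem inv_e (hee : e * e = e) (hφ : ∀ u z, φ (fun l => e (u l)) (fun l => cut e (z l)) = φ u z)
    (u : κ → A.H1) (z : κ' → A.H1 × (Fin d → ℚ)) : φ (fun l => e (u l)) z = φ u z := by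
  rw [← hφ, ← hφ u z]
  congr 2
  funext l
  exact LinearMap.congr_fun hee (u l)

theorem inv_cut (hee : e * e = e)
    (hφ : ∀ u z, φ (fun l => e (u l)) (fun l => cut e (z l)) = φ u z)
    (u : κ → A.H1) (z : κ' → A.H1 × (Fin d → ℚ)) : φ u (fun l => cut e (z l)) = φ u z := by
  rw [← hφ, ← hφ u z]
  congr 1
  funext l
  exact cut_cut hee (z l)

theorem n_acts2 (h : Mix2 A V w φ) (he : e ∈ A.EA) (hee : e * e = e)
    (hn : ∀ N ∈ nA A V, N * e = N)
    (hφ : ∀ u z, φ (fun l => e (u l)) (fun l => cut e (z l)) = φ u z)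
    {N : Module.End ℚ A.H1} (hN : N ∈ nA A V) (u : κ → A.H1)
    (z : κ' → A.H1 × (Fin d → ℚ)) : ∑ l, φ (update u l (N (u l))) z = 0 := by
  have cN := H_comm (fullA A V) ((idlA A V).1 hN) he
  have hNe := hn N hN
  obtain ⟨ℓ, ⟨⟨hℓ, h0⟩, h2⟩, rfl⟩ := hN
  have h3 := act_formula2 h hℓ u z
  have e1 : xV ℓ = 0 := h0
  have e2 : ℓ.2 = 0 := h2
  have e3 : pA A ℓ = xA A ℓ := by
    rw [pA_apply, e2, zero_div, zero_smul, sub_zero]
  rw [e3] at cN hNe ⊢
  rw [e2, mul_zero, zero_mul] at h3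
  have h4 : ∑ l, φ u (update z l (actT A ℓ (z l))) = 0 := by
    refine Finset.sum_eq_zero fun l _ => ?_
    rw [← inv_cut hee hφ]
    refine (φ u).map_coord_zero l ?_
    rw [update_self]
    refine Prod.ext ?_ ?_
    · change xA A ℓ (z l).1 - e (xA A ℓ (z l).1) = 0
      have h5 := LinearMap.congr_fun cN (z l).1
      rw [hNe] at h5
      rw [Module.End.mul_apply] at h5
      rw [← h5, sub_self]
    · change xV ℓ (z l).2 = 0
      rw [e1]
      rfl
  rw [h4, add_zero] at h3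
  exact h3

theorem h_acts2 (h : Mix2 A V w φ) (he : e ∈ A.EA) (hee : e * e = e)
    (hh : ∀ X ∈ hA A V, X * e ∈ nA A V) (hn : ∀ N ∈ nA A V, N * e = N)
    (hφ : ∀ u z, φ (fun l => e (u l)) (fun l => cut e (z l)) = φ u z)
    {X : Module.End ℚ A.H1} (hX : X ∈ hA A V) (u : κ → A.H1)
    (z : κ' → A.H1 × (Fin d → ℚ)) : ∑ l, φ (update u l (X (u l))) z = 0 := by
  have hN := hh X hX
  have cX := H_comm (fullA A V) hX he
  rw [← n_acts2 h he hee hn hφ hN (fun l => e (u l)) z]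
  refine Finset.sum_congr rfl fun l _ => ?_
  rw [← inv_e hee hφ]
  congr 2
  funext l'
  by_cases h3 : l' = l
  · subst h3
    rw [update_self, update_self]
    have h4 := LinearMap.congr_fun cX (u l')
    have h5 := LinearMap.congr_fun hee (u l')
    rw [Module.End.mul_apply] at h4 h5
    rw [Module.End.mul_apply, h5]
    exact h4.symm
  · rw [update_of_ne h3, update_of_ne h3]

theorem v_acts2 (h : Mix2 A V w φ) (he : e ∈ A.EA) (hee : e * e = e)
    (hh : ∀ X ∈ hA A V, X * e ∈ nA A V) (hn : ∀ N ∈ nA A V, N * e = N)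
    (hφ : ∀ u z, φ (fun l => e (u l)) (fun l => cut e (z l)) = φ u z) {m : ℤ}
    (hm : (Fintype.card κ : ℤ) = 2 * m) (u : κ → A.H1) :
    IsTw (dRT A V) (w - m) (φ u) := by
  refine tw_of_acts2 fun D lam z => ?_
  have hℓ := gn_mem_LG (hh2 A V) D lam
  have h1 := act_formula2 h hℓ u z
  have h2 := h_acts2 h he hee hh hn hφ (X := pA A (gn (hh2 A V) D lam)) ⟨_, hℓ, rfl⟩ u z
  have h3 : ∀ l, φ (update u l (pA A (gn (hh2 A V) D lam) (u l))) z =
      φ (update u l (xA A (gn (hh2 A V) D lam) (u l))) z -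
        (gn (hh2 A V) D lam).2 / 2 * φ u z := by
    intro l
    have h4 : pA A (gn (hh2 A V) D lam) (u l) = xA A (gn (hh2 A V) D lam) (u l) +
          (-((gn (hh2 A V) D lam).2 / 2)) • u l := by
      rw [pA_apply, neg_smul, ← sub_eq_add_neg]
      rfl
    rw [h4, φ.map_update_add, φ.map_update_smul, update_eq_self]
    change φ _ z + _ * φ u z = _
    ring
  rw [Finset.sum_congr rfl fun l _ => h3 l, Finset.sum_sub_distrib, Finset.sum_const,
    Finset.card_univ, nsmul_eq_mul] at h2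
  have h5 : (Fintype.card κ : ℚ) = 2 * m := by exact_mod_cast hm
  have h6 : (gn (hh2 A V) D lam).2 = tt D lam := rfl
  rw [h5, h6] at h2
  rw [h6] at h1
  push_cast
  linear_combination h1 - h2

end

/-- The form with the second variables fixed. -/
def fix2 (φ : MultilinearMap ℚ (fun _ : κ => A.H1)
    (MultilinearMap ℚ (fun _ : κ' => A.H1 × (Fin d → ℚ)) ℚ))
    (v : κ' → A.H1 × (Fin d → ℚ)) : MultilinearMap ℚ (fun _ : κ => A.H1) ℚ :=
  ({ toFun := fun χ => χ v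
     map_add' := fun _ _ => rfl
     map_smul' := fun _ _ => rfl } : MultilinearMap ℚ (fun _ : κ' => A.H1 × (Fin d → ℚ)) ℚ →ₗ[ℚ] ℚ)
    |>.compMultilinearMap φ

theorem fix2_apply (φ : MultilinearMap ℚ (fun _ : κ => A.H1)
    (MultilinearMap ℚ (fun _ : κ' => A.H1 × (Fin d → ℚ)) ℚ)) (v : κ' → A.H1 × (Fin d → ℚ))
    (u : κ → A.H1) : fix2 φ v u = φ u v := rfl

/-- **The splitting theorem.** -/
theorem split_main2 (A : AbVar g) (V : DRS d)
    (hs : ∀ Q ∈ A.EA, ∀ u v, A.om (Q u) v = A.om u (Q v))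
    (x : Fin 4 → A.H1) (hx : Submodule.span ℚ {y | ∃ Q ∈ A.EA, ∃ k, y = Q (x k)} = ⊤) :
    ∃ e ∈ A.EA, e * e = e ∧
      ((∀ X Y : Module.End ℚ (Fin d → ℚ),
        (∀ P, IsDeRhamBettiEnd QBar V.eta P → X * P = P * X) →
        (∀ P, IsDeRhamBettiEnd QBar V.eta P → Y * P = P * Y) → X * Y = Y * X) → e = 1) ∧
      (∀ (k : ℕ) (f : Fin k → Module.End ℚ A.H1), LinearIndependent ℚ f → (∀ i, f i ∈ A.EA) →
        (∀ i, f i * e = 0) → k ≤ d) ∧
      ∀ (κ κ' : Type) [Fintype κ] [DecidableEq κ] [Fintype κ'] [DecidableEq κ'] (w : ℤ)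
        (φ : MultilinearMap ℚ (fun _ : κ => A.H1)
          (MultilinearMap ℚ (fun _ : κ' => A.H1 × (Fin d → ℚ)) ℚ)), Mix2 A V w φ →
        (∀ u i j, u i = u j → i ≠ j → φ u = 0) →
        (∀ u z, φ (fun l => e (u l)) (fun l => cut e (z l)) = φ u z) →
        (Odd (Fintype.card κ) → φ = 0) ∧ ∀ (m : ℕ) (E : Fin m × Fin 2 ≃ κ),
        ∃ (K : ℕ) (ψ : Fin K → A.H1 [⋀^κ]→ₗ[ℚ] ℚ)
          (χ : Fin K → MultilinearMap ℚ (fun _ : κ' => A.H1 × (Fin d → ℚ)) ℚ),
          (∀ k, ψ k ∈ Submodule.span ℚ {ψ' : A.H1 [⋀^κ]→ₗ[ℚ] ℚ |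
            ∃ b : Fin m → A.H1 →ₗ[ℚ] A.H1 →ₗ[ℚ] ℚ,
            (∀ l, IsHodgeBilinear (A.per : A.H1 →+ (Fin g → ℂ)) (b l) ∧ ∀ u, b l u u = 0) ∧
            ∀ v, ψ' v = ∑ σ : Equiv.Perm κ, ((Equiv.Perm.sign σ : ℤ) : ℚ) *
              ∏ l, b l (v (σ (E (l, 0)))) (v (σ (E (l, 1))))}) ∧
          (∀ k, IsTw (dRT A V) (w - m) (χ k)) ∧
          (∀ k z, χ k (fun l => cut e (z l)) = χ k z) ∧ ∀ u z, φ u z = ∑ k, ψ k u * χ k z := by
  classical
  obtain ⟨e, he, hee, hh, hn, hone, hbd⟩ := exists_split A V hs x hx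
  refine ⟨e, he, hee, fun hcm => hone (full_of_cm hs hcm), hbd,
    fun κ κ' _ _ _ _ w φ hφ halt hinv => ⟨fun hodd => ?_, fun m E => ?_⟩⟩
  · refine MultilinearMap.ext fun u => MultilinearMap.ext fun z => ?_
    have h1 : fix2 φ z ∈ AK A κ (hA A V) :=
      ⟨fun u i j hij hne => by rw [fix2_apply, halt u i j hij hne]; rfl,
        fun X hX u => h_acts2 hφ he hee hh hn hinv hX u z⟩
    have h2 := oddH (fullA A V) (sys0 hs) (fun j => finrank_EE_le (sys0 hs) x hx j) hodd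
      (toAlt ⟨fix2 φ z, h1⟩) fun X hX => h1.2 X hX
    exact congrArg (fun ψ : A.H1 [⋀^κ]→ₗ[ℚ] ℚ => ψ u) h2
  · obtain ⟨K, f, y, hf⟩ := exists_pts (M := AK A κ (hA A V)) (X := κ → A.H1)
      (fun u => { toFun := fun ψ => ψ.1 u, map_add' := fun _ _ => rfl, map_smul' := fun _ _ => rfl })
      fun ψ hψ => Subtype.ext (MultilinearMap.ext fun u => hψ u)
    have hcard : (Fintype.card κ : ℤ) = 2 * (m : ℤ) := by
      rw [← Fintype.card_congr E, Fintype.card_prod, Fintype.card_fin, Fintype.card_fin]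
      push_cast
      ring
    refine ⟨K, fun k => toAlt (f k), fun k => φ (y k), fun k =>
      ak_lef (fullA A V) hs x hx (f k) E, fun k => v_acts2 hφ he hee hh hn hinv hcard (y k),
      fun k z => inv_cut hee hinv (y k) z, fun u z => ?_⟩
    have h1 : fix2 φ z ∈ AK A κ (hA A V) :=
      ⟨fun u i j hij hne => by rw [fix2_apply, halt u i j hij hne]; rfl,
        fun X hX u => h_acts2 hφ he hee hh hn hinv hX u z⟩
    have h2 := congrArg Subtype.val (hf ⟨fix2 φ z, h1⟩)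
    have h3 := congrArg (fun ψ : MultilinearMap ℚ (fun _ : κ => A.H1) ℚ => ψ u) h2
    change φ u z = _ at h3
    rw [h3, Submodule.coe_sum]
    rw [sum_apply]
    refine Finset.sum_congr rfl fun k _ => ?_
    exact mul_comm (φ (y k) z) ((f k).1 u)

end Pool.Agent.L0h12.FT
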