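import Pool.Agent.L0h12.FT.Odd

set_option autoImplicit false
set_option linter.unusedSectionVars false
set_option linter.unusedVariables false
set_option linter.unusedSimpArgs false

/-!
# Idempotents on which an ideal acts as the whole Lie algebra
-/

open Module Function Polynomial TensorProduct

noncomputable section

namespace Pool.Agent.L0h12.FT

open Pool.Agent.Y102 Pool.Agent.W516.DR Pool.Agent.H204R3.GP Pool.Agent.W516.KC
  Pool.Agent.H204R3.SP Pool.Agent.L0h12.FF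
open Pool.Agent.N192.GP (brk Idl)

variable {g : ℕ} {A : AbVar g} {𝔥 𝔫 : Submodule ℚ (Module.End ℚ A.H1)}

/-- The ideal `𝔫` has the same image as `𝔥` on the image of `f`. -/
def Gd (𝔥 𝔫 : Submodule ℚ (Module.End ℚ A.H1)) (f : Module.End ℚ A.H1) : Prop :=
  ∀ X ∈ 𝔥, ∃ N ∈ 𝔫, X * f = N * f

theorem gd_zero : Gd 𝔥 𝔫 0 := fun X _ => ⟨0, 𝔫.zero_mem, by rw [mul_zero, mul_zero]⟩

theorem gd_add (hF : A.Full 𝔥) (hI : Idl 𝔫 𝔥) (hp : 𝔥 ≤ brk 𝔥 𝔥) {f f' : Module.End ℚ A.H1}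
    (hf : f ∈ A.EA) (hf' : f' ∈ A.EA) (h : Gd 𝔥 𝔫 f) (h' : Gd 𝔥 𝔫 f') : Gd 𝔥 𝔫 (f + f') := by
  let S : Submodule ℚ (Module.End ℚ A.H1) :=
    { carrier := {X | ∃ N ∈ 𝔫, X * f = N * f ∧ X * f' = N * f'}
      zero_mem' := ⟨0, 𝔫.zero_mem, rfl, rfl⟩
      add_mem' := by
        rintro X Y ⟨N, hN, h1, h2⟩ ⟨M, hM, h3, h4⟩
        exact ⟨N + M, 𝔫.add_mem hN hM, by rw [add_mul, add_mul, h1, h3],
          by rw [add_mul, add_mul, h2, h4]⟩
      smul_mem' := by
        rintro c X ⟨N, hN, h1, h2⟩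
        exact ⟨c • N, 𝔫.smul_mem c hN, by rw [smul_mul_assoc, smul_mul_assoc, h1],
          by rw [smul_mul_assoc, smul_mul_assoc, h2]⟩ }
  have h1 : 𝔥 ≤ S := by
    refine hp.trans ?_
    unfold brk
    rw [Submodule.span_le]
    rintro _ ⟨Y, hY, Z, hZ, rfl⟩
    obtain ⟨N, hN, e1⟩ := h Y hY
    obtain ⟨M, hM, e2⟩ := h' Z hZ
    have hN' := hI.1 hN
    have hM' := hI.1 hM
    have cY := H_comm hF hY hf
    have cZ := H_comm hF hZ hf
    have cN := H_comm hF hN' hf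
    have cM := H_comm hF hM' hf
    have cY' := H_comm hF hY hf'
    have cZ' := H_comm hF hZ hf'
    have cN' := H_comm hF hN' hf'
    have cM' := H_comm hF hM' hf'
    refine ⟨(N * Z - Z * N) + (Y * M - M * Y) - (N * M - M * N), ?_, ?_, ?_⟩
    · refine 𝔫.sub_mem (𝔫.add_mem ?_ (hI.2 Y hY M hM)) (hI.2 N hN' M hM)
      have := 𝔫.neg_mem (hI.2 Z hZ N hN)
      rwa [neg_sub] at this
    · have a1 : Y * Z * f = N * Z * f := by rw [mul_assoc, cZ, ← mul_assoc, e1, mul_assoc, ← cZ,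
        ← mul_assoc]
      have a2 : Z * Y * f = Z * N * f := by rw [mul_assoc, e1, ← mul_assoc]
      have a3 : Y * M * f = N * M * f := by rw [mul_assoc, cM, ← mul_assoc, e1, mul_assoc, ← cM,
        ← mul_assoc]
      have a4 : M * Y * f = M * N * f := by rw [mul_assoc, e1, ← mul_assoc]
      simp only [sub_mul, add_mul, a1, a2, a3, a4]
      abel
    · have a1 : Z * Y * f' = M * Y * f' := by rw [mul_assoc, cY', ← mul_assoc, e2, mul_assoc, ← cY',
        ← mul_assoc]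
      have a2 : Y * Z * f' = Y * M * f' := by rw [mul_assoc, e2, ← mul_assoc]
      have a3 : Z * N * f' = M * N * f' := by rw [mul_assoc, cN', ← mul_assoc, e2, mul_assoc, ← cN',
        ← mul_assoc]
      have a4 : N * Z * f' = N * M * f' := by rw [mul_assoc, e2, ← mul_assoc]
      simp only [sub_mul, add_mul, a1, a2, a3, a4]
      abel
  intro X hX
  obtain ⟨N, hN, e1, e2⟩ := h1 hX
  exact ⟨N, hN, by rw [mul_add, mul_add, e1, e2]⟩

/-- The largest good idempotent. -/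
theorem exists_max (hF : A.Full 𝔥) (hI : Idl 𝔫 𝔥) (hp : 𝔥 ≤ brk 𝔥 𝔥) :
    ∃ e ∈ A.EA, e * e = e ∧ Gd 𝔥 𝔫 e ∧ ∀ f ∈ A.EA, f * f = f → f ≠ 0 → f * e = 0 → e * f = 0 →
      ¬ Gd 𝔥 𝔫 f := by
  classical
  let S : Set ℕ := {n | ∃ e ∈ A.EA, e * e = e ∧ Gd 𝔥 𝔫 e ∧ finrank ℚ (LinearMap.range e) = n}
  have hne : S.Nonempty := ⟨_, 0, A.EA.zero_mem, mul_zero 0, gd_zero, rfl⟩
  have hbd : BddAbove S := by
    refine ⟨finrank ℚ A.H1, ?_⟩
    rintro _ ⟨e, _, _, _, rfl⟩
    exact Submodule.finrank_le _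
  obtain ⟨e, he, hee, hg, hn⟩ := Nat.sSup_mem hne hbd
  refine ⟨e, he, hee, hg, fun f hf hff hf0 hfe hef hgf => ?_⟩
  have h1 : (e + f) * (e + f) = e + f := by
    rw [add_mul, mul_add, mul_add, hee, hff, hfe, hef, add_zero, zero_add]
  have h2 : finrank ℚ (LinearMap.range (e + f)) ∈ S :=
    ⟨e + f, A.EA.add_mem he hf, h1, gd_add hF hI hp he hf hg hgf, rfl⟩
  have h3 := le_csSup hbd h2
  have h4 : LinearMap.range e < LinearMap.range (e + f) := by
    refine lt_of_le_of_ne ?_ ?_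
    · rintro _ ⟨u, rfl⟩
      refine ⟨e u, ?_⟩
      have e1 := LinearMap.congr_fun hee u
      have e2 := LinearMap.congr_fun hfe u
      rw [Module.End.mul_apply] at e1 e2
      rw [LinearMap.add_apply, e1, e2, LinearMap.zero_apply, add_zero]
    · intro h5
      apply hf0
      refine LinearMap.ext fun u => ?_
      have h6 : f u ∈ LinearMap.range e := by
        rw [h5]
        refine ⟨f u, ?_⟩
        have e1 := LinearMap.congr_fun hff u
        have e2 := LinearMap.congr_fun hef u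
        rw [Module.End.mul_apply] at e1 e2
        rw [LinearMap.add_apply, e1, e2, LinearMap.zero_apply, zero_add]
      obtain ⟨w, hw⟩ := h6
      have e1 := LinearMap.congr_fun hff u
      have e2 := LinearMap.congr_fun hfe w
      rw [Module.End.mul_apply] at e1 e2
      rw [← e1, ← hw, e2]
      rfl
  have h5 := Submodule.finrank_lt_finrank_of_lt h4
  rw [hn] at h5
  omega

end Pool.Agent.L0h12.FT
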