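import Pool.Agent.L0h12.FT.Blk
import Pool.Agent.N192.GP.Ribet

set_option autoImplicit false
set_option linter.unusedSectionVars false
set_option linter.unusedVariables false
set_option linter.unusedSimpArgs false

/-!
# Forms in an odd number of variables, and perfect Lie algebras
-/

open Module Function Polynomial TensorProduct

noncomputable section

namespace Pool.Agent.L0h12.FT

open Pool.Agent.Y102 Pool.Agent.W516.DR Pool.Agent.H204R3.GP Pool.Agent.W516.KC
  Pool.Agent.H204R3.SP Pool.Agent.L0h12.FF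

attribute [local instance 100] LieRing.ofAssociativeRing

section Cx

variable {V : Type} [AddCommGroup V] [Module ℂ V] [FiniteDimensional ℂ V]
  {L : LieSubalgebra ℂ (Module.End ℂ V)} {ω : V →ₗ[ℂ] V →ₗ[ℂ] ℂ}
  {P : Prin L} {J : Type} {W : J → Submodule ℂ V} {v : J → V} {d : J → ℕ}

theorem fam_odd (H : Fam P ω W v d) [LieAlgebra.IsKilling ℂ L] [Fintype J] {κ : Type} [Fintype κ]
    [DecidableEq κ] (hodd : Odd (Fintype.card κ)) (α : MultilinearMap ℂ (fun _ : κ => V) ℂ)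
    (halt : ∀ (x : κ → V) (i j : κ), x i = x j → i ≠ j → α x = 0)
    (hinv : ∀ X ∈ L, Kills X α) : α = 0 := by
  classical
  obtain ⟨b, hb⟩ := H.exists_basis
  obtain ⟨S, C⟩ := H.cb α halt hinv
  refine Basis.ext_multilinear (fun _ => b) fun I => ?_
  rw [zero_apply]
  let I' : κ → J × ℕ := fun a => ((I a).1, ((I a).2 : ℕ))
  have h1 : (α fun a => b (I a)) = α fun a => Fam.gv P v (I' a) := by
    congr 1
    funext a
    exact hb (I a)
  rw [h1]
  have h2 : ∑ j, (Cb.Tj I' j).card = Fintype.card κ := by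
    have h3 := Finset.card_eq_sum_card_fiberwise (f := fun a => (I' a).1)
      (s := (Finset.univ : Finset κ)) (t := (Finset.univ : Finset J))
      fun a _ => Finset.mem_coe.2 (Finset.mem_univ _)
    rw [Finset.card_univ] at h3
    rw [h3]
    refine Finset.sum_congr rfl fun j _ => ?_
    congr 1
  obtain ⟨j, hj⟩ : ∃ j, Odd (Cb.Tj I' j).card := by
    by_contra hcon
    push Not at hcon
    rw [← h2] at hodd
    refine (Nat.not_odd_iff_even.2 ?_) hodd
    exact Finset.even_sum _ fun j _ => Nat.not_odd_iff_even.1 (hcon j)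
  exact C.odd_zero hj

end Cx

variable {g : ℕ} {A : AbVar g} {𝔥 : Submodule ℚ (Module.End ℚ A.H1)}
  {P : Fin 0 → Module.End ℚ A.H1}

theorem oddH (hF : A.Full 𝔥) (H : Sys A P) (hb : ∀ j : FF.JJ A P, finrank ℂ (EE A P j.1) ≤ 4)
    {κ : Type} [Fintype κ] [DecidableEq κ] (hodd : Odd (Fintype.card κ))
    (φ : A.H1 [⋀^κ]→ₗ[ℚ] ℚ) (hφ : ∀ X ∈ 𝔥, Kills X φ.toMultilinearMap) : φ = 0 := by
  classical
  obtain ⟨hK, p, v, d, F⟩ := famH hF H hb
  obtain ⟨inst, _⟩ := H.card_JJ
  let b : Basis (Fin (2 * g)) ℚ A.H1 := Pi.basisFun ℚ (Fin (2 * g))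
  let Φ := bcm (Ω := ℂ) b φ.toMultilinearMap
  have hinv : ∀ X ∈ LH hF, Kills X Φ := by
    intro X hX
    refine (kills_bcm_iff b φ.toMultilinearMap X).2 fun lam => ?_
    exact hφ _ (cmp_of_ext 𝔥 hX lam)
  have h1 := fam_odd F hodd Φ (fun x i j hij hne => bcm_alt b φ x i j hij hne) hinv
  refine AlternatingMap.ext fun u => ?_
  have h2 : algebraMap ℚ ℂ (φ u) = Φ (fun l => (1 : ℂ) ⊗ₜ[ℚ] u l) :=
    (bcm_one (Ω := ℂ) b φ.toMultilinearMap u).symm
  rw [h1, zero_apply] at h2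
  rw [AlternatingMap.zero_apply]
  exact (map_eq_zero_iff _ (algebraMap ℚ ℂ).injective).1 h2

/-- The Lie algebra is perfect. -/
theorem perfH (hF : A.Full 𝔥) (hs : ∀ Q ∈ A.EA, ∀ u v, A.om (Q u) v = A.om u (Q v)) :
    𝔥 ≤ Pool.Agent.N192.GP.brk 𝔥 𝔥 := by
  intro X hX
  obtain ⟨Z, hZ, D, hD, h1, hc⟩ := hF.dec hX
  have hZE : Z ∈ A.EA := commH hF fun Y hY => (hc Y hY).symm
  have hZ0 : Z = 0 := by
    refine LinearMap.ext fun u => ?_
    apply A.om_nondeg
    intro w
    have h2 := A.NA_skew (hF.le hZ) u w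
    have h3 := hs Z hZE u w
    have h4 : (2 : ℚ) * A.om (Z u) w = 0 := by linear_combination h2 + h3
    exact (mul_eq_zero.1 h4).resolve_left two_ne_zero
  rw [h1, hZ0, zero_add]
  exact hD

end Pool.Agent.L0h12.FT
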