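import Mathlib

set_option autoImplicit false
set_option linter.unusedSectionVars false
set_option linter.unusedVariables false

/-!
# Commuting copies of `sl(2)` on a vector space
-/

open Module Function

noncomputable section

namespace Pool.Agent.L0h12.FT

attribute [local instance 100] LieRing.ofAssociativeRing

section Count

/-- A half of the nonzero complex numbers. -/
def Ps (c : ℂ) : Prop := 0 < c.re ∨ (c.re = 0 ∧ 0 < c.im)

theorem ps_or {c : ℂ} (h : c ≠ 0) : Ps c ∨ Ps (-c) := by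
  unfold Ps
  rw [Complex.neg_re, Complex.neg_im]
  rcases lt_trichotomy c.re 0 with h1 | h1 | h1
  · right; left; linarith
  · rcases lt_trichotomy c.im 0 with h2 | h2 | h2
    · right; right; exact ⟨by linarith, by linarith⟩
    · exact absurd (Complex.ext h1 h2) h
    · left; right; exact ⟨h1, h2⟩
  · left; left; exact h1

theorem not_ps {c : ℂ} (h : Ps c) : ¬ Ps (-c) := by
  unfold Ps at *
  rw [Complex.neg_re, Complex.neg_im]
  rintro (h1 | ⟨h1, h2⟩) <;> rcases h with h3 | ⟨h3, h4⟩ <;> linarith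

theorem ps_ne {c : ℂ} (h : Ps c) : c ≠ 0 := by
  rintro rfl
  unfold Ps at h
  rw [Complex.zero_re, Complex.zero_im] at h
  rcases h with h1 | ⟨_, h1⟩ <;> exact lt_irrefl _ h1

variable {σ : Type*} [DecidableEq σ]

theorem flip_card (S : Finset σ) : ∀ (Λ : Finset (σ → ℂ)),
    (∀ s ∈ S, ∀ x ∈ Λ, update x s (-x s) ∈ Λ) → (∀ s ∈ S, ∃ x ∈ Λ, x s ≠ 0) →
    2 * S.card ≤ Λ.card := by
  classical
  induction S using Finset.strongInduction with
  | H S ih =>
    intro Λ hfl hne
    rcases S.eq_empty_or_nonempty with rfl | ⟨s, hs⟩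
    · simp
    let Λ0 := Λ.filter fun x => x s = 0
    let Λp := Λ.filter fun x => Ps (x s)
    let Λm := Λ.filter fun x => Ps (-x s)
    let T0 := (S.erase s).filter fun t => ∃ x ∈ Λ0, x t ≠ 0
    let T1 := (S.erase s).filter fun t => ¬ ∃ x ∈ Λ0, x t ≠ 0
    have hT0 : T0 ⊂ S := (Finset.filter_subset _ _).trans_ssubset (Finset.erase_ssubset hs)
    have hT1 : T1 ⊂ S := (Finset.filter_subset _ _).trans_ssubset (Finset.erase_ssubset hs)
    have h0 : 2 * T0.card ≤ Λ0.card := by
      refine ih T0 hT0 Λ0 (fun t ht x hx => ?_) fun t ht => (Finset.mem_filter.1 ht).2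
      obtain ⟨ht1, ht2⟩ := Finset.mem_erase.1 (Finset.mem_filter.1 ht).1
      obtain ⟨hx1, hx2⟩ := Finset.mem_filter.1 hx
      exact Finset.mem_filter.2 ⟨hfl t ht2 x hx1, by rw [update_of_ne (Ne.symm ht1)]; exact hx2⟩
    have hpt : ∀ t ∈ T1, ∃ x ∈ Λp, x t ≠ 0 := by
      intro t ht
      obtain ⟨ht0, hcon⟩ := Finset.mem_filter.1 ht
      obtain ⟨ht1, ht2⟩ := Finset.mem_erase.1 ht0
      obtain ⟨x, hx, hxt⟩ := hne t ht2
      have hxs : x s ≠ 0 := fun h => hcon ⟨x, Finset.mem_filter.2 ⟨hx, h⟩, hxt⟩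
      rcases ps_or hxs with h | h
      · exact ⟨x, Finset.mem_filter.2 ⟨hx, h⟩, hxt⟩
      · exact ⟨update x s (-x s), Finset.mem_filter.2 ⟨hfl s hs x hx, by rw [update_self]; exact h⟩,
          by rw [update_of_ne ht1]; exact hxt⟩
    have h1 : 2 * T1.card ≤ Λp.card := by
      refine ih T1 hT1 Λp (fun t ht x hx => ?_) hpt
      obtain ⟨ht1, ht2⟩ := Finset.mem_erase.1 (Finset.mem_filter.1 ht).1
      obtain ⟨hx1, hx2⟩ := Finset.mem_filter.1 hx
      exact Finset.mem_filter.2 ⟨hfl t ht2 x hx1, by rw [update_of_ne (Ne.symm ht1)]; exact hx2⟩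
    have h2 : 1 ≤ Λp.card := by
      obtain ⟨x, hx, hxs⟩ := hne s hs
      refine Finset.card_pos.2 ?_
      rcases ps_or hxs with h | h
      · exact ⟨x, Finset.mem_filter.2 ⟨hx, h⟩⟩
      · exact ⟨update x s (-x s), Finset.mem_filter.2 ⟨hfl s hs x hx, by rw [update_self]; exact h⟩⟩
    have h3 : Λp.card ≤ Λm.card := by
      refine Finset.card_le_card_of_injOn (fun x => update x s (-x s)) (fun x hx => ?_) ?_
      · obtain ⟨hx1, hx2⟩ := Finset.mem_filter.1 hx
        refine Finset.mem_filter.2 ⟨hfl s hs x hx1, ?_⟩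
        change Ps (-(update x s (-x s) s))
        rw [update_self, neg_neg]
        exact hx2
      · intro x _ y _ hxy
        change update x s (-x s) = update y s (-y s) at hxy
        funext t
        by_cases hts : t = s
        · have h4 := congrFun hxy s
          rw [update_self, update_self] at h4
          rw [hts]
          exact neg_injective h4
        · have h4 := congrFun hxy t
          rwa [update_of_ne hts, update_of_ne hts] at h4
    have h4 : Λ0.card + (Λp.card + Λm.card) ≤ Λ.card := by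
      rw [← Finset.card_union_of_disjoint (s := Λp) (t := Λm), ← Finset.card_union_of_disjoint]
      · exact Finset.card_le_card (Finset.union_subset (Finset.filter_subset _ _)
          (Finset.union_subset (Finset.filter_subset _ _) (Finset.filter_subset _ _)))
      · rw [Finset.disjoint_left]
        intro x hx hx'
        have h5 := (Finset.mem_filter.1 hx).2
        rcases Finset.mem_union.1 hx' with h6 | h6
        · exact ps_ne (Finset.mem_filter.1 h6).2 h5
        · exact ps_ne (Finset.mem_filter.1 h6).2 (by rw [h5, neg_zero])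
      · rw [Finset.disjoint_left]
        intro x hx hx'
        exact not_ps (Finset.mem_filter.1 hx).2 (Finset.mem_filter.1 hx').2
    have h5 : T0.card + T1.card = S.card - 1 := by
      rw [← Finset.card_erase_of_mem hs]
      exact Finset.card_filter_add_card_filter_not _
    have h6 : 1 ≤ S.card := Finset.card_pos.2 ⟨s, hs⟩
    omega

end Count

section Sl

variable {M : Type*} [AddCommGroup M] [Module ℂ M] [FiniteDimensional ℂ M]
  {H E F : Module.End ℂ M}

theorem exists_last (t : IsSl2Triple H E F) {v : M} (hv : v ≠ 0) {c : ℂ} (hc : H v = c • v) :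
    ∃ n : ℕ, (E ^ n) v ≠ 0 ∧ E ((E ^ n) v) = 0 ∧ H ((E ^ n) v) = (c + 2 * n) • (E ^ n) v := by
  have hE : ∀ n : ℕ, H ((E ^ n) v) = (c + 2 * n) • (E ^ n) v := fun n =>
    t.lie_h_pow_toEnd_e (R := ℂ) (M := M) (m := v) (μ := c) hc n
  have hex : ∃ k : ℕ, (E ^ k) v = 0 := by
    by_contra! contra
    have hinj : Injective fun n : ℕ => c + 2 * (n : ℂ) := fun a b hab => by
      simpa using hab
    have h1 := (H.eigenvectors_linearIndependent' (fun n : ℕ => c + 2 * (n : ℂ)) hinj
      (fun n => (E ^ n) v) fun n => ⟨Module.End.mem_eigenspace_iff.2 (hE n), contra n⟩).finite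
    exact not_finite ℕ
  obtain ⟨n, hn1, hn2⟩ := Nat.exists_not_and_succ_of_not_zero_of_exists
    (p := fun k => (E ^ k) v = 0) (by simpa using hv) hex
  refine ⟨n, hn1, ?_, hE n⟩
  rw [pow_succ'] at hn2
  exact hn2

theorem prim (t : IsSl2Triple H E F) {v : M} (hv : v ≠ 0) {c : ℂ} (hc : H v = c • v) :
    ∃ n m : ℕ, c + 2 * n = m ∧ ∀ i ≤ m, (F ^ i) ((E ^ n) v) ≠ 0 ∧
      H ((F ^ i) ((E ^ n) v)) = ((m : ℂ) - 2 * i) • (F ^ i) ((E ^ n) v) := by
  obtain ⟨n, h1, h2, h3⟩ := exists_last t hv hc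
  have hp : t.HasPrimitiveVectorWith ((E ^ n) v) (c + 2 * n) := ⟨h1, h3, h2⟩
  obtain ⟨m, hm⟩ := hp.exists_nat
  refine ⟨n, m, hm, fun i hi => ⟨hp.pow_toEnd_f_ne_zero_of_eq_nat hm hi, ?_⟩⟩
  have h4 := hp.lie_h_pow_toEnd_f i
  rw [hm] at h4
  exact h4

/-- The eigenvalues are symmetric. -/
theorem eig_neg (t : IsSl2Triple H E F) {N : Submodule ℂ M} (hE : ∀ x ∈ N, E x ∈ N)
    (hF : ∀ x ∈ N, F x ∈ N) {v : M} (hvN : v ∈ N) (hv : v ≠ 0) {c : ℂ} (hc : H v = c • v) :
    ∃ w ∈ N, w ≠ 0 ∧ H w = (-c) • w := by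
  have hpE : ∀ (k : ℕ), ∀ x ∈ N, (E ^ k) x ∈ N := by
    intro k
    induction k with
    | zero => intro x hx; simpa using hx
    | succ k ih => intro x hx; rw [pow_succ']; exact hE _ (ih x hx)
  have hpF : ∀ (k : ℕ), ∀ x ∈ N, (F ^ k) x ∈ N := by
    intro k
    induction k with
    | zero => intro x hx; simpa using hx
    | succ k ih => intro x hx; rw [pow_succ']; exact hF _ (ih x hx)
  obtain ⟨n, m, hm, h⟩ := prim t hv hc
  by_cases hnm : n ≤ m
  · obtain ⟨h1, h2⟩ := h (m - n) (Nat.sub_le _ _)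
    refine ⟨_, hpF _ _ (hpE _ _ hvN), h1, ?_⟩
    rw [h2]
    congr 1
    rw [Nat.cast_sub hnm]
    linear_combination hm
  · obtain ⟨n', m', hm', h'⟩ := prim t.symm (c := -c) hv (by
      rw [LinearMap.neg_apply, hc, neg_smul])
    have h3 : n' ≤ m' := by
      have h4 : ((2 * n + 2 * n' : ℕ) : ℂ) = ((m + m' : ℕ) : ℂ) := by
        push_cast
        linear_combination hm + hm'
      have h5 : 2 * n + 2 * n' = m + m' := by exact_mod_cast h4
      have h6 : ((2 * n' : ℕ) : ℂ) = m' + c := by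
        push_cast
        linear_combination hm'
      omega
    obtain ⟨h1, h2⟩ := h' (m' - n') (Nat.sub_le _ _)
    refine ⟨_, hpE _ _ (hpF _ _ hvN), h1, ?_⟩
    rw [LinearMap.neg_apply, neg_eq_iff_eq_neg] at h2
    rw [h2, ← neg_smul]
    congr 1
    rw [Nat.cast_sub h3]
    linear_combination -hm'

/-- There is a nonzero eigenvalue. -/
theorem eig_ne (t : IsSl2Triple H E F) : ∃ c : ℂ, c ≠ 0 ∧ ∃ v : M, v ≠ 0 ∧ H v = c • v := by
  by_contra! hcon
  have he : ∀ w, H (E w) = E (H w) + (2 : ℂ) • E w := by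
    intro w
    have h1 : H * E - E * H = (2 : ℂ) • E := t.lie_h_e_smul ℂ
    have h2 := LinearMap.congr_fun h1 w
    change H (E w) - E (H w) = (2 : ℂ) • E w at h2
    rw [← h2]
    abel
  have hf : ∀ w, H (F w) = F (H w) + (-2 : ℂ) • F w := by
    intro w
    have h1 : H * F - F * H = -((2 : ℂ) • F) := t.lie_lie_smul_f ℂ
    have h2 := LinearMap.congr_fun h1 w
    change H (F w) - F (H w) = -((2 : ℂ) • F w) at h2
    rw [neg_smul, ← h2]
    abel
  have hef : ∀ w, H w = E (F w) - F (E w) := by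
    intro w
    have h1 : E * F - F * E = H := t.lie_e_f
    exact (LinearMap.congr_fun h1 w).symm
  have hE0 : ∀ w, H (E w) = (2 : ℂ) • E w → E w = 0 := by
    intro w h
    by_contra h0
    exact hcon 2 two_ne_zero _ h0 h
  have hF0 : ∀ w, H (F w) = (-2 : ℂ) • F w → F w = 0 := by
    intro w h
    by_contra h0
    exact hcon (-2) (by norm_num) _ h0 h
  have h1 : ∀ u, H u = 0 → E u = 0 ∧ F u = 0 := by
    intro u hu
    constructor
    · refine hE0 u ?_
      rw [he, hu, map_zero, zero_add]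
    · refine hF0 u ?_
      rw [hf, hu, map_zero, zero_add]
  have h2 : ∀ u, H (H u) = 0 → H u = 0 := by
    intro u hu
    obtain ⟨h3, h4⟩ := h1 _ hu
    have h5 : E u = 0 := hE0 u (by rw [he, h3, zero_add])
    have h6 : F u = 0 := hF0 u (by rw [hf, h4, zero_add])
    rw [hef, h5, h6, map_zero, map_zero, sub_zero]
  have h3 : ∀ (k : ℕ) (u : M), (H ^ (k + 1)) u = 0 → H u = 0 := by
    intro k
    induction k with
    | zero => intro u hu; simpa using hu
    | succ k ih =>
      intro u hu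
      rw [pow_succ, Module.End.mul_apply] at hu
      exact h2 u (ih _ hu)
  apply t.h_ne_zero
  refine LinearMap.ext fun u => ?_
  have hu : u ∈ ⨆ μ : ℂ, H.maxGenEigenspace μ := by
    rw [Module.End.iSup_maxGenEigenspace_eq_top]
    trivial
  induction hu using Submodule.iSup_induction' with
  | mem μ u hu =>
    by_cases hμ : μ = 0
    · subst hμ
      obtain ⟨k, hk⟩ := Module.End.mem_maxGenEigenspace H 0 u |>.1 hu
      rw [zero_smul, sub_zero] at hk
      cases k with
      | zero =>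
        rw [pow_zero, Module.End.one_apply] at hk
        rw [hk, map_zero, map_zero]
      | succ k => exact h3 k u hk
    · by_contra h0
      have hu0 : u ≠ 0 := by
        rintro rfl
        exact h0 (by rw [map_zero, map_zero])
      obtain ⟨k, hk⟩ := Module.End.mem_maxGenEigenspace H μ u |>.1 hu
      obtain ⟨n, hn1, hn2⟩ := Nat.exists_not_and_succ_of_not_zero_of_exists
        (p := fun k => ((H - μ • 1) ^ k) u = 0) (by simpa using hu0) ⟨k, hk⟩
      refine hcon μ hμ _ hn1 ?_
      rw [pow_succ', Module.End.mul_apply, LinearMap.sub_apply] at hn2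
      exact sub_eq_zero.1 hn2
  | zero => rw [map_zero, map_zero]
  | add a b _ _ ha hb => rw [map_add, map_add, ha, hb]

end Sl

end Pool.Agent.L0h12.FT
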