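import Pool.Agent.L0h12.FT.Sl
import Pool.Agent.N192.GP.LieC

set_option autoImplicit false
set_option linter.unusedSectionVars false
set_option linter.unusedVariables false

/-!
# Dimensions of representations of Lie algebras with many ideals
-/

open Module Function

noncomputable section

namespace Pool.Agent.L0h12.FT

attribute [local instance 100] LieRing.ofAssociativeRing

section Fam

variable {M : Type*} [AddCommGroup M] [Module ℂ M] [FiniteDimensional ℂ M]
  {ι : Type*} [Fintype ι] [DecidableEq ι] {H E F : ι → Module.End ℂ M}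

theorem joint {ι : Type*} [DecidableEq ι] {H : ι → Module.End ℂ M}
    (hc : ∀ i j, H i * H j = H j * H i) (T : Finset ι) :
    ∀ N : Submodule ℂ M, N ≠ ⊥ → (∀ i, ∀ x ∈ N, H i x ∈ N) →
      ∃ v ∈ N, v ≠ 0 ∧ ∀ i ∈ T, ∃ c : ℂ, H i v = c • v := by
  induction T using Finset.induction_on with
  | empty =>
    intro N hN _
    obtain ⟨v, hv, hv0⟩ := Submodule.exists_mem_ne_zero_of_ne_bot hN
    exact ⟨v, hv, hv0, fun i hi => absurd hi (Finset.notMem_empty i)⟩
  | insert i T hi ih =>
    intro N hN hst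
    have : Nontrivial N := Submodule.nontrivial_iff_ne_bot.2 hN
    obtain ⟨c, hc'⟩ := Module.End.exists_eigenvalue ((H i).restrict (hst i))
    obtain ⟨⟨w, hw⟩, hw'⟩ := hc'.exists_hasEigenvector
    have h1 : H i w = c • w := congrArg Subtype.val hw'.apply_eq_smul
    have h2 : w ≠ 0 := fun h => hw'.2 (Subtype.ext h)
    let N' : Submodule ℂ M := N ⊓ Module.End.eigenspace (H i) c
    have h3 : N' ≠ ⊥ := by
      intro h
      have h4 : w ∈ N' := ⟨hw, Module.End.mem_eigenspace_iff.2 h1⟩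
      rw [h] at h4
      exact h2 ((Submodule.mem_bot ℂ).1 h4)
    obtain ⟨v, hv, hv0, h5⟩ := ih N' h3 fun j x hx => ⟨hst j x hx.1, by
      have h6 : H i x = c • x := Module.End.mem_eigenspace_iff.1 hx.2
      have h7 := LinearMap.congr_fun (hc i j) x
      rw [Module.End.mul_apply, Module.End.mul_apply, h6, map_smul] at h7
      exact Module.End.mem_eigenspace_iff.2 h7⟩
    refine ⟨v, hv.1, hv0, fun j hj => ?_⟩
    rcases Finset.mem_insert.1 hj with rfl | hj
    · exact ⟨c, Module.End.mem_eigenspace_iff.1 hv.2⟩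
    · exact h5 j hj

/-- **Commuting copies of `sl(2)`.** -/
theorem sl2_dim (t : ∀ i, IsSl2Triple (H i) (E i) (F i)) (hH : ∀ i j, H i * H j = H j * H i)
    (hE : ∀ i j, i ≠ j → H i * E j = E j * H i) (hF : ∀ i j, i ≠ j → H i * F j = F j * H i) :
    2 * Fintype.card ι ≤ finrank ℂ M := by
  classical
  let Λ : Set (ι → ℂ) := {χ | ∃ v : M, v ≠ 0 ∧ ∀ i, H i v = χ i • v}
  let p : (ι → ℂ) → Submodule ℂ M := fun χ => ⨅ i, (H i).maxGenEigenspace (χ i)
  have hp : iSupIndep p := Module.End.independent_iInf_maxGenEigenspace_of_forall_mapsTo H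
    fun i j φ => Module.End.mapsTo_maxGenEigenspace_of_comm (hH j i) φ
  have hΛ : ∀ χ ∈ Λ, p χ ≠ ⊥ := by
    rintro χ ⟨v, hv, h⟩ hbot
    have h1 : v ∈ p χ := by
      rw [Submodule.mem_iInf]
      intro i
      rw [Module.End.mem_maxGenEigenspace]
      exact ⟨1, by rw [pow_one, LinearMap.sub_apply, h i]; exact sub_self _⟩
    rw [hbot] at h1
    exact hv ((Submodule.mem_bot ℂ).1 h1)
  have : Fintype {χ // p χ ≠ ⊥} := hp.fintypeNeBotOfFiniteDimensional
  let Λ' : Finset (ι → ℂ) := (Finset.univ.image (Subtype.val : {χ // p χ ≠ ⊥} → (ι → ℂ))).filter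
    fun χ => χ ∈ Λ
  have hmem : ∀ χ, χ ∈ Λ' ↔ χ ∈ Λ := by
    intro χ
    rw [Finset.mem_filter]
    refine ⟨fun h => h.2, fun h => ⟨?_, h⟩⟩
    exact Finset.mem_image.2 ⟨⟨χ, hΛ χ h⟩, Finset.mem_univ _, rfl⟩
  have h1 : Λ'.card ≤ finrank ℂ M := by
    refine (Finset.card_filter_le _ _).trans (Finset.card_image_le.trans ?_)
    rw [Finset.card_univ]
    exact hp.subtype_ne_bot_le_finrank
  refine le_trans ?_ h1
  rw [← Finset.card_univ]
  refine flip_card Finset.univ Λ' (fun i _ χ hχ => ?_) fun i _ => ?_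
  · rw [hmem] at hχ ⊢
    obtain ⟨v, hv, h⟩ := hχ
    let N : Submodule ℂ M := ⨅ j : {j // j ≠ i}, Module.End.eigenspace (H j) (χ j)
    have hN : ∀ x, x ∈ N ↔ ∀ j, j ≠ i → H j x = χ j • x := by
      intro x
      rw [Submodule.mem_iInf]
      exact ⟨fun h j hj => Module.End.mem_eigenspace_iff.1 (h ⟨j, hj⟩),
        fun h j => Module.End.mem_eigenspace_iff.2 (h j.1 j.2)⟩
    have hst : ∀ X : Module.End ℂ M, (∀ j, j ≠ i → H j * X = X * H j) → ∀ x ∈ N, X x ∈ N := by
      intro X hX x hx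
      rw [hN] at hx ⊢
      intro j hj
      have h2 := LinearMap.congr_fun (hX j hj) x
      rw [Module.End.mul_apply, Module.End.mul_apply, hx j hj, map_smul] at h2
      exact h2
    obtain ⟨w, hw, hw0, h2⟩ := eig_neg (t i) (hst _ fun j hj => hE j i hj)
      (hst _ fun j hj => hF j i hj) ((hN v).2 fun j _ => h j) hv (h i)
    refine ⟨w, hw0, fun j => ?_⟩
    by_cases hj : j = i
    · subst hj
      rw [update_self]
      exact h2
    · rw [update_of_ne hj]
      exact (hN w).1 hw j hj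
  · obtain ⟨c, hc0, v, hv, h⟩ := eig_ne (t i)
    have hne : Module.End.eigenspace (H i) c ≠ ⊥ := by
      intro h2
      have h3 : v ∈ Module.End.eigenspace (H i) c := Module.End.mem_eigenspace_iff.2 h
      rw [h2] at h3
      exact hv ((Submodule.mem_bot ℂ).1 h3)
    obtain ⟨w, hw, hw0, h2⟩ := joint hH Finset.univ _ hne fun j x hx => by
      rw [Module.End.mem_eigenspace_iff] at hx ⊢
      have h4 := LinearMap.congr_fun (hH i j) x
      rw [Module.End.mul_apply, Module.End.mul_apply, hx, map_smul] at h4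
      exact h4
    choose χ hχ using fun i => h2 i (Finset.mem_univ i)
    refine ⟨χ, (hmem χ).2 ⟨w, hw0, hχ⟩, ?_⟩
    have h3 := hχ i
    rw [Module.End.mem_eigenspace_iff.1 hw] at h3
    have h4 : (c - χ i) • w = 0 := by rw [sub_smul, h3, sub_self]
    have h5 := sub_eq_zero.1 ((smul_eq_zero.1 h4).resolve_right hw0)
    rwa [← h5]

end Fam

end Pool.Agent.L0h12.FT
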